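import Mathlib

/-! Reals as trees, well-foundedness, and tree representations of analytic sets. -/

namespace Pool.Agent.P.MP_501d1b_lc

open Set Filter Topology MeasureTheory

/-- The `k`-th immediate subtree. -/
def sub (q : ℕ → ℕ) (k : ℕ) : ℕ → ℕ := fun n => q (Nat.pair k n + 1)

/-- Well-founded trees; a real `q` with `q 0 ≠ 0` is a terminal position. -/
inductive WF : (ℕ → ℕ) → Prop
  | mk (q : ℕ → ℕ) (h : ∀ k, q 0 = 0 → WF (sub q k)) : WF q

lemma WF.sub {q : ℕ → ℕ} (h : WF q) (h0 : q 0 = 0) (k : ℕ) : WF (sub q k) := by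
  cases h with
  | mk _ h => exact h k h0

lemma not_wf_of_supp {Z : Set (ℕ → ℕ)} (hZ : ∀ q ∈ Z, q 0 = 0 ∧ ∃ k, sub q k ∈ Z) {q : ℕ → ℕ}
    (hq : q ∈ Z) : ¬ WF q := by
  intro h
  induction h with
  | mk q _ ih =>
    obtain ⟨h0, k, hk⟩ := hZ q hq
    exact ih k h0 hk

def subs (q b : ℕ → ℕ) : ℕ → ℕ → ℕ
  | 0 => q
  | n + 1 => sub (subs q b n) (b n)

lemma not_wf_iff (q : ℕ → ℕ) : ¬ WF q ↔ ∃ b, ∀ n, subs q b n 0 = 0 := by
  constructor
  · intro h
    have key : ∀ p : {p // ¬ WF p}, ∃ k, p.1 0 = 0 ∧ ¬ WF (sub p.1 k) := fun p => by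
      by_contra hc
      refine p.2 (WF.mk _ fun k h0 => ?_)
      by_contra hk
      exact hc ⟨k, h0, hk⟩
    choose κ hκ using key
    let s : ℕ → {p // ¬ WF p} := fun n =>
      Nat.rec ⟨q, h⟩ (fun _ p => ⟨sub p.1 (κ p), (hκ p).2⟩) n
    refine ⟨fun n => κ (s n), fun n => ?_⟩
    have : ∀ n, subs q (fun n => κ (s n)) n = (s n).1 := fun n => by
      induction n with
      | zero => rfl
      | succ n ih => simp only [subs, ih]; rfl
    rw [this]; exact (hκ _).1
  · rintro ⟨b, hb⟩
    refine not_wf_of_supp (Z := range (subs q b)) ?_ ⟨0, rfl⟩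
    rintro _ ⟨n, rfl⟩
    exact ⟨hb n, b n, n + 1, rfl⟩

/-- The code of the initial segment of length `n`. -/
def seg (b : ℕ → ℕ) : ℕ → ℕ
  | 0 => 0
  | n + 1 => Nat.pair (seg b n) (b n) + 1

lemma le_seg (b : ℕ → ℕ) (n : ℕ) : n ≤ seg b n := by
  induction n with
  | zero => rfl
  | succ n ih => exact Nat.succ_le_succ (ih.trans (Nat.left_le_pair _ _))

lemma seg_inj {a b : ℕ → ℕ} {m n : ℕ} (h : seg a m = seg b n) : m = n ∧ ∀ i < n, a i = b i := by
  induction m generalizing n with
  | zero =>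
    cases n with
    | zero => exact ⟨rfl, fun i hi => absurd hi (Nat.not_lt_zero _)⟩
    | succ n => simp [seg] at h
  | succ m ih =>
    cases n with
    | zero => simp [seg] at h
    | succ n =>
      simp only [seg, Nat.add_right_cancel_iff, Nat.pair_eq_pair] at h
      obtain ⟨rfl, h2⟩ := ih h.1
      refine ⟨rfl, fun i hi => ?_⟩
      rcases Nat.lt_succ_iff_lt_or_eq.1 hi with h' | rfl
      · exact h2 i h'
      · exact h.2

lemma seg_congr {a b : ℕ → ℕ} {n : ℕ} (h : ∀ i < n, a i = b i) : seg a n = seg b n := by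
  induction n with
  | zero => rfl
  | succ n ih => simp only [seg, ih fun i hi => h i (by omega), h n (by omega)]

lemma continuous_app {T α : Type} [TopologicalSpace T] [TopologicalSpace α] {e : T → ℕ → α}
    {n : T → ℕ} (he : Continuous e) (hn : Continuous n) : Continuous fun t => e t (n t) := by
  have : Continuous fun p : (ℕ → α) × ℕ => p.1 p.2 :=
    continuous_prod_of_discrete_right.2 fun b => continuous_apply b
  exact this.comp (he.prodMk hn)

lemma continuous_pair {T : Type} [TopologicalSpace T] {a b : T → ℕ} (ha : Continuous a)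
    (hb : Continuous b) : Continuous fun t => Nat.pair (a t) (b t) :=
  (continuous_of_discreteTopology (f := fun p : ℕ × ℕ => Nat.pair p.1 p.2)).comp (ha.prodMk hb)

lemma continuous_seg (n : ℕ) : Continuous fun b => seg b n := by
  induction n with
  | zero => exact continuous_const
  | succ n ih => exact (continuous_pair ih (continuous_apply n)).add continuous_const

lemma continuous_sub {T : Type} [TopologicalSpace T] {q : T → ℕ → ℕ} {k : T → ℕ}
    (hq : Continuous q) (hk : Continuous k) : Continuous fun t => sub (q t) (k t) :=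
  continuous_pi fun n => continuous_app (e := q) (n := fun t => Nat.pair (k t) n + 1) hq
    ((continuous_pair hk continuous_const).add continuous_const)

lemma continuous_subs (n : ℕ) : Continuous fun p : (ℕ → ℕ) × (ℕ → ℕ) => subs p.1 p.2 n := by
  induction n with
  | zero => exact continuous_fst
  | succ n ih => exact continuous_sub ih ((continuous_apply n).comp continuous_snd)

/-- The node reached from `u` along the path coded by `m`. -/
def node (u : ℕ) : ℕ → ℕ
  | 0 => u
  | m + 1 => node (Nat.pair u m.unpair.1 + 1) m.unpair.2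
decreasing_by exact Nat.lt_succ_of_le (Nat.unpair_right_le _)

def Tr (fl : ℕ → ℕ) (u : ℕ) : ℕ → ℕ := fun m => fl (node u m)

lemma Tr_zero (fl : ℕ → ℕ) (u : ℕ) : Tr fl u 0 = fl u := by simp [Tr, node]

lemma sub_Tr (fl : ℕ → ℕ) (u k : ℕ) : sub (Tr fl u) k = Tr fl (Nat.pair u k + 1) := by
  funext n
  simp only [sub, Tr]
  rw [node]
  simp only [Nat.unpair_pair]

lemma subs_Tr (fl b : ℕ → ℕ) (n : ℕ) : subs (Tr fl 0) b n = Tr fl (seg b n) := by
  induction n with
  | zero => rfl
  | succ n ih => simp only [subs, ih, sub_Tr, seg]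

lemma not_wf_Tr (fl : ℕ → ℕ) : ¬ WF (Tr fl 0) ↔ ∃ b, ∀ n, fl (seg b n) = 0 := by
  simp only [not_wf_iff, subs_Tr, Tr_zero]

lemma continuous_Tr : Continuous fun fl => Tr fl 0 :=
  continuous_pi fun _ => continuous_apply _

/-- A universal map for maps whose `m`-th output depends on the first `m` inputs. -/
def phi (e x : ℕ → ℕ) : ℕ → ℕ := fun m => e (Nat.pair m (seg x m))

lemma continuous_phi {T : Type} [TopologicalSpace T] {e x : T → ℕ → ℕ} (he : Continuous e)
    (hx : Continuous x) : Continuous fun t => phi (e t) (x t) :=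
  continuous_pi fun m => continuous_app (e := e) (n := fun t => Nat.pair m (seg (x t) m)) he
    (continuous_pair continuous_const ((continuous_seg m).comp hx))

lemma tendsto_of_agree {y : ℕ → ℕ → ℕ} {b : ℕ → ℕ} (h : ∀ n, ∀ i < n, y n i = b i) :
    Tendsto y atTop (𝓝 b) := by
  refine tendsto_pi_nhds.2 fun i => tendsto_const_nhds.congr' ?_
  filter_upwards [eventually_gt_atTop i] with n hn
  exact (h n i hn).symm

theorem tree_of_analytic {A : Set (ℕ → ℕ)} (hA : AnalyticSet A) :
    ∃ e : ℕ → ℕ, ∀ x, x ∈ A ↔ ¬ WF (Tr (phi e x) 0) := by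
  classical
  rw [AnalyticSet] at hA
  rcases hA with rfl | ⟨f, hf, rfl⟩
  · refine ⟨fun _ => 1, fun x => ?_⟩
    rw [not_wf_Tr]
    simp [phi]
  · refine ⟨fun m => if ∃ y n, seg y n = m.unpair.1 ∧ seg (f y) m.unpair.1 = m.unpair.2
      then 0 else 1, fun x => ?_⟩
    rw [not_wf_Tr]
    simp only [phi, Nat.unpair_pair, ite_eq_left_iff, one_ne_zero, imp_false, not_not]
    constructor
    · rintro ⟨y, rfl⟩
      exact ⟨y, fun n => ⟨y, n, rfl, rfl⟩⟩
    · rintro ⟨b, hb⟩
      choose y m h1 h2 using hb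
      have t1 : Tendsto y atTop (𝓝 b) := tendsto_of_agree fun n => (seg_inj (h1 n)).2
      have t2 : Tendsto (fun n => f (y n)) atTop (𝓝 x) :=
        tendsto_of_agree fun n i hi => (seg_inj (h2 n)).2 i (hi.trans_le (le_seg b n))
      exact ⟨b, tendsto_nhds_unique ((hf.tendsto b).comp t1) t2⟩

theorem not_analytic_wf : ¬ AnalyticSet {q | WF q} := by
  intro h
  have hc : Continuous fun x => Tr (phi x x) 0 :=
    continuous_Tr.comp (continuous_phi continuous_id continuous_id)
  obtain ⟨e, he⟩ := tree_of_analytic (h.preimage hc)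
  exact iff_not_self (he e)

end Pool.Agent.P.MP_501d1b_lc
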