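import Pool.Agent.P.MP_501d1b_lc.Coding
import Pool.Agent.P.MP_501d1b_lc.Trees

/-! The coded problem is not coanalytic. -/

namespace Pool.Agent.P.MP_501d1b_lc

open Set TopologicalSpace MeasureTheory

theorem not_pi11 (X : Type) [TopologicalSpace X] [PolishSpace X] [Uncountable X]
    (I : (i : Fin L0.k) → ℕ → Set (Fin (L0.ar i) → X))
    (hB : ∀ i, IsTopologicalBasis (range (I i))) : ¬ IsPi11 (CSPB H0 I) := by
  obtain ⟨g, hg, h⟩ := reduction (Q := ℕ → ℕ) (Root := fun x => {x})
    (Dead := fun _ => {q | q 0 ≠ 0}) (Imp := ∅) (ch := sub)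
    (measurableSet_eq_fun measurable_snd measurable_fst)
    (measurableSet_eq_fun ((measurable_pi_apply 0).comp measurable_snd) measurable_const).compl
    MeasurableSet.empty (fun k => (continuous_sub continuous_id continuous_const).measurable)
    X I hB
  intro hP
  apply not_analytic_wf
  convert AnalyticSet.preimage hP hg
  ext x
  simp only [mem_ofPred_eq, mem_preimage, mem_compl_iff, h]
  constructor
  · rintro hx ⟨Z, -, h0, h1, h2, -⟩
    exact not_wf_of_supp (fun q hq => ⟨not_not.1 (h1 q hq), h2 q hq⟩) (h0 rfl) hx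
  · intro hx
    by_contra hw
    obtain ⟨b, hb⟩ := (not_wf_iff x).1 hw
    refine hx ⟨range (subs x b), (countable_range _).measurableSet, ?_, ?_, ?_, ?_⟩
    · rintro _ rfl; exact ⟨0, rfl⟩
    · rintro _ ⟨n, rfl⟩ hn; exact hn (hb n)
    · rintro _ ⟨n, rfl⟩; exact ⟨b n, n + 1, rfl⟩
    · intro q q' hq; exact hq.elim

end Pool.Agent.P.MP_501d1b_lc
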