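import Pool.Agent.P.MP_501d1b_lc.Gadget

/-! Borel codes: uniqueness of the coded set, continuous parametrisation of Borel families, and
the reduction of self supporting sets to the coded homomorphism problem. -/

namespace Pool.Agent.P.MP_501d1b_lc

open Set Filter Topology TopologicalSpace

lemma Codes.unique {Y : Type} {I : ℕ → Set Y} {c : ℕ → ℕ} {A : Set Y} (h : Codes I c A) :
    ∀ {B : Set Y}, Codes I c B → A = B := by
  induction h with
  | opn c h =>
    intro B hB
    cases hB with
    | opn _ _ => rfl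
    | compl _ _ h' _ => omega
    | union _ _ h' _ => omega
  | compl c A h hA ih =>
    intro B hB
    cases hB with
    | opn _ h' => omega
    | compl _ _ _ hB => rw [ih hB]
    | union _ _ h' _ => omega
  | union c A h hA ih =>
    intro B hB
    cases hB with
    | opn _ h' => omega
    | compl _ _ h' _ => omega
    | union _ B _ hB => exact iUnion_congr fun i => ih i (hB i)

lemma Codes.measurableSet {Y : Type} [MeasurableSpace Y] {I : ℕ → Set Y}
    (hI : ∀ n, MeasurableSet (I n)) {c : ℕ → ℕ} {A : Set Y} (h : Codes I c A) :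
    MeasurableSet A := by
  induction h with
  | opn c h => exact MeasurableSet.iUnion fun n => MeasurableSet.iUnion fun _ => hI n
  | compl c A h hA ih => exact ih.compl
  | union c A h hA ih => exact MeasurableSet.iUnion ih

lemma exists_code_open {Y : Type} [TopologicalSpace Y] {I : ℕ → Set Y}
    (hI : IsTopologicalBasis (range I)) {U : Set Y} (hU : IsOpen U) : ∃ c, Codes I c U := by
  classical
  let c : ℕ → ℕ := fun n => Nat.casesOn n 2 fun k => if I k ⊆ U then 1 else 0
  have h := Codes.opn (I := I) c (by simp [c])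
  refine ⟨c, ?_⟩
  convert h
  ext y
  simp only [mem_iUnion, c, exists_prop]
  constructor
  · intro hy
    obtain ⟨_, ⟨k, rfl⟩, h1, h2⟩ := hI.exists_subset_of_mem_open hy hU
    exact ⟨k, if_pos h2, h1⟩
  · rintro ⟨k, h1, h2⟩
    by_cases h3 : I k ⊆ U
    · exact h3 h2
    · rw [if_neg h3] at h1; omega

/-- Families whose sections have codes depending continuously on the parameter. -/
@[instance_reducible] def codedFamilies {Y : Type} [TopologicalSpace Y] {I : ℕ → Set Y}
    (hI : IsTopologicalBasis (range I)) : MeasurableSpace ((ℕ → ℕ) × Y) where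
  MeasurableSet' S := ∃ g : (ℕ → ℕ) → ℕ → ℕ, Continuous g ∧ ∀ x, Codes I (g x) {y | (x, y) ∈ S}
  measurableSet_empty := by
    obtain ⟨c, hc⟩ := exists_code_open hI isOpen_empty
    exact ⟨fun _ => c, continuous_const, fun _ => hc⟩
  measurableSet_compl := by
    rintro S ⟨g, hg, h⟩
    refine ⟨fun x n => Nat.casesOn n 0 (g x), continuous_pi fun n => ?_,
      fun x => Codes.compl _ _ rfl (h x)⟩
    cases n with
    | zero => exact continuous_const
    | succ n => exact (continuous_apply n).comp hg
  measurableSet_iUnion := by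
    intro S hS
    choose g hg h using hS
    refine ⟨fun x n => Nat.casesOn n 1 fun m => g m.unpair.1 x m.unpair.2,
      continuous_pi fun n => ?_, fun x => ?_⟩
    · cases n with
      | zero => exact continuous_const
      | succ n => exact (continuous_apply _).comp (hg _)
    · have : {y | (x, y) ∈ ⋃ i, S i} = ⋃ i, {y | (x, y) ∈ S i} := by ext y; simp
      rw [this]
      refine Codes.union _ _ rfl fun i => ?_
      simpa only [Nat.unpair_pair] using h i x

theorem exists_continuous_code {Y : Type} [TopologicalSpace Y] [MeasurableSpace Y] [BorelSpace Y]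
    {I : ℕ → Set Y} (hI : IsTopologicalBasis (range I)) {S : Set ((ℕ → ℕ) × Y)}
    (hS : MeasurableSet S) :
    ∃ g : (ℕ → ℕ) → ℕ → ℕ, Continuous g ∧ ∀ x, Codes I (g x) {y | (x, y) ∈ S} := by
  classical
  have h1 : @Measurable _ _ (codedFamilies hI) _ (Prod.fst : (ℕ → ℕ) × Y → ℕ → ℕ) := by
    refine @measurable_pi_lambda _ _ _ (codedFamilies hI) _ _ fun i => ?_
    refine @measurable_to_countable' _ _ _ _ (codedFamilies hI) _ fun a => ?_
    obtain ⟨c0, hc0⟩ := exists_code_open hI isOpen_empty
    obtain ⟨c1, hc1⟩ := exists_code_open hI isOpen_univ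
    refine ⟨fun x => if x i = a then c1 else c0, (continuous_of_discreteTopology
      (f := fun b : ℕ => if b = a then c1 else c0)).comp (continuous_apply i), fun x => ?_⟩
    by_cases h : x i = a
    · simpa [h] using hc1
    · simpa [h] using hc0
  have h2 : @Measurable _ _ (codedFamilies hI) _ (Prod.snd : (ℕ → ℕ) × Y → Y) := by
    refine @measurable_of_isOpen _ _ _ _ _ (codedFamilies hI) _ fun U hU => ?_
    obtain ⟨c, hc⟩ := exists_code_open hI hU
    exact ⟨fun _ => c, continuous_const, fun _ => hc⟩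
  exact (h1.prodMk h2) hS

section
variable {Q : Type} [MeasurableSpace Q] {T : Type} [MeasurableSpace T]

lemma measurable_zz {a : T → Q} (ha : Measurable a) : Measurable fun t => zz (a t) :=
  ha.prodMk measurable_const

lemma measurable_ww {a : T → Q} (ha : Measurable a) (n : ℕ) : Measurable fun t => ww (a t) n :=
  ha.prodMk measurable_const

lemma measurable_yy {a : T → Q} (ha : Measurable a) {b : T → ℕ → Bool} (hb : Measurable b) :
    Measurable fun t => yy (a t) (b t) :=
  ha.prodMk (measurable_const.prodMk hb)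

lemma measurable_gad [StandardBorelSpace Q] {Root Dead : (ℕ → ℕ) → Set Q} {Imp : Set (Q × Q)} {ch : Q → ℕ → Q}
    (hR : MeasurableSet {p : (ℕ → ℕ) × Q | p.2 ∈ Root p.1})
    (hD : MeasurableSet {p : (ℕ → ℕ) × Q | p.2 ∈ Dead p.1})
    (hI : MeasurableSet Imp) (hch : ∀ k, Measurable fun q => ch q k) (i : Fin L0.k) :
    MeasurableSet {p : (ℕ → ℕ) × (Fin (L0.ar i) → X0 Q) |
      p.2 ∈ Gad (Root p.1) (Dead p.1) Imp ch i} := by
  match i with
  | ⟨0, _⟩ =>
    have hu : Measurable fun p : (ℕ → ℕ) × (Fin 1 → X0 Q) => p.2 0 :=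
      (measurable_pi_apply 0).comp measurable_snd
    exact ((hD.preimage (measurable_fst.prodMk hu.fst)).inter
      (measurableSet_eq_fun hu (measurable_zz hu.fst))).union
      (measurableSet_eq_fun hu (measurable_ww hu.fst 0))
  | ⟨1, _⟩ =>
    have hu : Measurable fun p : (ℕ → ℕ) × (Fin 1 → X0 Q) => p.2 0 :=
      (measurable_pi_apply 0).comp measurable_snd
    exact (hR.preimage (measurable_fst.prodMk hu.fst)).inter
      (measurableSet_eq_fun hu (measurable_zz hu.fst))
  | ⟨2, _⟩ =>
    have hu : ∀ j, Measurable fun p : (ℕ → ℕ) × (Fin 3 → X0 Q) => p.2 j := fun j =>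
      (measurable_pi_apply j).comp measurable_snd
    have e1 : MeasurableSet {p : (ℕ → ℕ) × (Fin 3 → X0 Q) | ∃ n, p.2 0 = ww (p.2 0).1 n ∧
        p.2 1 = zz (ch (p.2 0).1 n) ∧ p.2 2 = ww (p.2 0).1 (n + 1)} := by
      rw [ofPred_exists]
      exact MeasurableSet.iUnion fun n =>
        (measurableSet_eq_fun (hu 0) (measurable_ww (hu 0).fst n)).inter
          ((measurableSet_eq_fun (hu 1) (measurable_zz ((hch n).comp (hu 0).fst))).inter
            (measurableSet_eq_fun (hu 2) (measurable_ww (hu 0).fst (n + 1))))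
    exact e1.union (((measurableSet_eq_fun (hu 0) (measurable_yy (hu 0).fst (hu 0).snd.snd)).inter
      ((measurableSet_eq_fun (hu 1) (hu 0)).inter
        (measurableSet_eq_fun (hu 2) (measurable_zz (hu 0).fst)))).union
      ((hI.preimage ((hu 2).fst.prodMk (hu 0).fst)).inter
        ((measurableSet_eq_fun (hu 0) (measurable_zz (hu 0).fst)).inter
          ((measurableSet_eq_fun (hu 1) (hu 0)).inter
            (measurableSet_eq_fun (hu 2) (measurable_zz (hu 2).fst))))))
  | ⟨3, _⟩ =>
    have hu : ∀ j, Measurable fun p : (ℕ → ℕ) × (Fin 3 → X0 Q) => p.2 j := fun j =>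
      (measurable_pi_apply j).comp measurable_snd
    have e1 : MeasurableSet {p : (ℕ → ℕ) × (Fin 3 → X0 Q) | ∃ n, p.2 0 = ww (p.2 0).1 n ∧
        p.2 1 = yy (p.2 0).1 (p.2 1).2.2 ∧ p.2 2 = yy (p.2 0).1 (flp n (p.2 1).2.2)} := by
      rw [ofPred_exists]
      exact MeasurableSet.iUnion fun n =>
        (measurableSet_eq_fun (hu 0) (measurable_ww (hu 0).fst n)).inter
          ((measurableSet_eq_fun (hu 1) (measurable_yy (hu 0).fst (hu 1).snd.snd)).inter
            (measurableSet_eq_fun (hu 2) (measurable_yy (hu 0).fst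
              ((continuous_flp n).measurable.comp (hu 1).snd.snd))))
    exact e1

end

lemma not_countable_X0 (Q : Type) [Nonempty Q] : ¬ Countable (X0 Q) := by
  intro h
  obtain ⟨q⟩ := ‹Nonempty Q›
  have hinj : Function.Injective (yy q) := fun a b hab => congrArg (fun v => v.2.2) hab
  have : Countable (ℕ → Bool) := hinj.countable
  have h2 : Cardinal.mk (ℕ → Bool) ≤ Cardinal.aleph0 := Cardinal.mk_le_aleph0
  simp only [Cardinal.mk_pi, Cardinal.mk_fintype, Fintype.card_bool, Cardinal.prod_const,
    Cardinal.mk_nat, Cardinal.lift_id, Nat.cast_ofNat] at h2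
  exact absurd h2 (not_le.2 (Cardinal.cantor _))

/-- The existence of a Borel self supporting set reduces continuously to the coded problem. -/
theorem reduction {Q : Type} [MeasurableSpace Q] [StandardBorelSpace Q] [Nonempty Q]
    {Root Dead : (ℕ → ℕ) → Set Q} {Imp : Set (Q × Q)} {ch : Q → ℕ → Q}
    (hR : MeasurableSet {p : (ℕ → ℕ) × Q | p.2 ∈ Root p.1})
    (hD : MeasurableSet {p : (ℕ → ℕ) × Q | p.2 ∈ Dead p.1})
    (hI : MeasurableSet Imp) (hch : ∀ k, Measurable fun q => ch q k)
    (X : Type) [TopologicalSpace X] [PolishSpace X] [Uncountable X]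
    (I : (i : Fin L0.k) → ℕ → Set (Fin (L0.ar i) → X))
    (hB : ∀ i, IsTopologicalBasis (range (I i))) :
    ∃ g : (ℕ → ℕ) → ℕ → ℕ, Continuous g ∧ ∀ x, (g x ∈ CSPB H0 I ↔
      ∃ Z, MeasurableSet Z ∧ Supp (Root x) (Dead x) Imp ch Z) := by
  borelize X
  let e : X ≃ᵐ X0 Q := PolishSpace.measurableEquivOfNotCountable
    (not_countable_iff.2 ‹_›) (not_countable_X0 Q)
  let G : (ℕ → ℕ) → Str L0 X := fun x i => {t | e ∘ t ∈ Gad (Root x) (Dead x) Imp ch i}
  have hG : ∀ i, MeasurableSet {p : (ℕ → ℕ) × (Fin (L0.ar i) → X) | p.2 ∈ G p.1 i} := fun i =>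
    (measurable_gad hR hD hI hch i).preimage (f := fun p : (ℕ → ℕ) × (Fin (L0.ar i) → X) =>
      (p.1, e ∘ p.2)) (measurable_fst.prodMk (measurable_pi_lambda _ fun j =>
        e.measurable.comp ((measurable_pi_apply j).comp measurable_snd)))
  choose g hg hcode using fun i => exists_continuous_code (hB i) (hG i)
  let g' : (ℕ → ℕ) → ℕ → ℕ := fun x n =>
    if h : n.unpair.1 < 4 then g ⟨n.unpair.1, h⟩ x n.unpair.2 else 0
  have hg' : ∀ x (i : Fin L0.k), (fun n => g' x (Nat.pair i n)) = g i x := fun x i => by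
    funext n
    simp only [g', Nat.unpair_pair]
    exact dif_pos i.2
  refine ⟨g', continuous_pi fun n => ?_, fun x => ?_⟩
  · by_cases h : n.unpair.1 < 4
    · simp only [g', dif_pos h]; exact (continuous_apply _).comp (hg _)
    · simp only [g', dif_neg h]; exact continuous_const
  rw [← gad_iff _ _ _ _ hch]
  constructor
  · rintro ⟨G', hG', f, hf, hhom⟩
    have hGG : ∀ i, G' i = G x i := fun i => by
      have := hG' i
      rw [hg'] at this
      exact this.unique (hcode i x)
    refine ⟨f ∘ e.symm, (measurable_to_countable' hf).comp e.symm.measurable, fun i t ht => ?_⟩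
    refine hhom i (e.symm ∘ t) ?_
    rw [hGG]
    show e ∘ e.symm ∘ t ∈ Gad (Root x) (Dead x) Imp ch i
    have : e ∘ e.symm ∘ t = t := by funext j; simp
    rw [this]; exact ht
  · rintro ⟨f, hf, hhom⟩
    refine ⟨G x, fun i => by rw [hg']; exact hcode i x, f ∘ e,
      fun a => (hf.comp e.measurable) (measurableSet_singleton a), fun i t ht => hhom i _ ht⟩

end Pool.Agent.P.MP_501d1b_lc
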