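import Pool.Agent.P.MP_501d1b_lc.Defs

/-! The three element template and its Datalog program. -/

namespace Pool.Agent.P.MP_501d1b_lc

def ar0 : Fin 4 → ℕ
  | ⟨0, _⟩ => 1
  | ⟨1, _⟩ => 1
  | ⟨2, _⟩ => 3
  | ⟨3, _⟩ => 3

abbrev L0 : Sig := ⟨4, ar0⟩

def sg : Fin 3 → Fin 3 := ![1, 0, 2]

/-- A structure for `L0` from two unary and two ternary relations. -/
def mk4 {V : Type} (A B : V → Prop) (R S : V → V → V → Prop) : Str L0 V
  | ⟨0, _⟩ => {t : Fin 1 → V | A (t 0)}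
  | ⟨1, _⟩ => {t : Fin 1 → V | B (t 0)}
  | ⟨2, _⟩ => {t : Fin 3 → V | R (t 0) (t 1) (t 2)}
  | ⟨3, _⟩ => {t : Fin 3 → V | S (t 0) (t 1) (t 2)}

/-- The template on `{0, 1, 2}`; the element `2` plays the role of `false`. -/
def H0 : Str L0 (Fin 3) :=
  mk4 (fun a => a = 2) (fun a => a ≠ 2) (fun u v w => u = 2 → v = 2 → w = 2)
    (fun w y y' => w = 2 → y' = sg y)

def rA {V : Type} (G : Str L0 V) (x : V) : Prop := (![x] : Fin 1 → V) ∈ G ⟨0, by decide⟩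
def rB {V : Type} (G : Str L0 V) (x : V) : Prop := (![x] : Fin 1 → V) ∈ G ⟨1, by decide⟩
def rR {V : Type} (G : Str L0 V) (x y z : V) : Prop :=
  (![x, y, z] : Fin 3 → V) ∈ G ⟨2, by decide⟩
def rS {V : Type} (G : Str L0 V) (x y z : V) : Prop :=
  (![x, y, z] : Fin 3 → V) ∈ G ⟨3, by decide⟩

lemma vec1 {V : Type} (t : Fin 1 → V) : t = ![t 0] := by
  funext i; fin_cases i; rfl

lemma vec2 {V : Type} (t : Fin 2 → V) : t = ![t 0, t 1] := by
  funext i; fin_cases i <;> rfl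

lemma vec3 {V : Type} (t : Fin 3 → V) : t = ![t 0, t 1, t 2] := by
  funext i; fin_cases i <;> rfl

lemma isHom_iff {V : Type} (G : Str L0 V) (f : V → Fin 3) :
    IsHom G H0 f ↔ (∀ x, rA G x → f x = 2) ∧ (∀ x, rB G x → f x ≠ 2) ∧
      (∀ u v w, rR G u v w → f u = 2 → f v = 2 → f w = 2) ∧
      (∀ w y y', rS G w y y' → f w = 2 → f y' = sg (f y)) := by
  constructor
  · intro h
    exact ⟨fun x hx => h ⟨0, by decide⟩ _ hx, fun x hx => h ⟨1, by decide⟩ _ hx,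
      fun u v w hx => h ⟨2, by decide⟩ _ hx, fun u v w hx => h ⟨3, by decide⟩ _ hx⟩
  · rintro ⟨h0, h1, h2, h3⟩ i
    match i with
    | ⟨0, _⟩ =>
      intro (t : Fin 1 → V) ht
      exact h0 (t 0) (by unfold rA; rw [← vec1 t]; exact ht)
    | ⟨1, _⟩ =>
      intro (t : Fin 1 → V) ht
      exact h1 (t 0) (by unfold rB; rw [← vec1 t]; exact ht)
    | ⟨2, _⟩ =>
      intro (t : Fin 3 → V) ht
      exact h2 (t 0) (t 1) (t 2) (by unfold rR; rw [← vec3 t]; exact ht)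
    | ⟨3, _⟩ =>
      intro (t : Fin 3 → V) ht
      exact h3 (t 0) (t 1) (t 2) (by unfold rS; rw [← vec3 t]; exact ht)

def ar1 : Fin 3 → ℕ
  | ⟨0, _⟩ => 1
  | ⟨1, _⟩ => 2
  | ⟨2, _⟩ => 0

abbrev J0 : Sig := ⟨3, ar1⟩

def aF {v : ℕ} (x : Fin v) : Atom J0 v := ⟨⟨0, by decide⟩, (![x] : Fin 1 → Fin v)⟩
def aO {v : ℕ} (x y : Fin v) : Atom J0 v := ⟨⟨1, by decide⟩, (![x, y] : Fin 2 → Fin v)⟩
def aG {v : ℕ} : Atom J0 v := ⟨⟨2, by decide⟩, (![] : Fin 0 → Fin v)⟩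
def eA {v : ℕ} (x : Fin v) : Atom L0 v := ⟨⟨0, by decide⟩, (![x] : Fin 1 → Fin v)⟩
def eB {v : ℕ} (x : Fin v) : Atom L0 v := ⟨⟨1, by decide⟩, (![x] : Fin 1 → Fin v)⟩
def eR {v : ℕ} (x y z : Fin v) : Atom L0 v := ⟨⟨2, by decide⟩, (![x, y, z] : Fin 3 → Fin v)⟩
def eS {v : ℕ} (x y z : Fin v) : Atom L0 v := ⟨⟨3, by decide⟩, (![x, y, z] : Fin 3 → Fin v)⟩

def r1 : Rule L0 J0 := ⟨1, aF 0, [eA 0], [], by decide⟩
def r2 : Rule L0 J0 := ⟨3, aF 2, [eR 0 1 2], [aF 0, aF 1], by decide⟩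
def r3 : Rule L0 J0 := ⟨3, aO 1 2, [eS 0 1 2], [aF 0], by decide⟩
def r4 : Rule L0 J0 := ⟨2, aO 1 0, [], [aO 0 1], by decide⟩
def r5 : Rule L0 J0 := ⟨4, aO 0 3, [], [aO 0 1, aO 1 2, aO 2 3], by decide⟩
def r6 : Rule L0 J0 := ⟨1, aF 0, [], [aO 0 0], by decide⟩
def r7 : Rule L0 J0 := ⟨2, aF 1, [], [aO 0 1, aF 0], by decide⟩
def r8 : Rule L0 J0 := ⟨1, aG, [eB 0], [aF 0], by decide⟩

def P0 : Program L0 := ⟨J0, [r1, r2, r3, r4, r5, r6, r7, r8], ⟨2, by decide⟩, rfl⟩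

/-- What a homomorphism makes of the derived relations. -/
def Sd {V : Type} (f : V → Fin 3) : Str J0 V
  | ⟨0, _⟩ => {t : Fin 1 → V | f (t 0) = 2}
  | ⟨1, _⟩ => {t : Fin 2 → V | f (t 1) = sg (f (t 0))}
  | ⟨2, _⟩ => ∅

lemma sg_sg (a : Fin 3) : sg (sg a) = a := by revert a; decide
lemma sg_fix (a : Fin 3) (h : a = sg a) : a = 2 := by revert a; decide
lemma sg_two : sg 2 = 2 := rfl

lemma memr' (r : Rule L0 J0) (h : r ∈ P0.rules) :
    r = r1 ∨ r = r2 ∨ r = r3 ∨ r = r4 ∨ r = r5 ∨ r = r6 ∨ r = r7 ∨ r = r8 := by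
  have h' : r ∈ [r1, r2, r3, r4, r5, r6, r7, r8] := h
  simpa only [List.mem_cons, List.not_mem_nil, or_false] using h'

lemma mem0 {α : Type} {a : α} {l : List α} : a ∈ a :: l := List.mem_cons_self
lemma mem1 {α : Type} {a b : α} {l : List α} : b ∈ a :: b :: l := List.mem_cons_of_mem _ mem0
lemma mem2 {α : Type} {a b c : α} {l : List α} : c ∈ a :: b :: c :: l :=
  List.mem_cons_of_mem _ mem1

lemma sound {V : Type} (G : Str L0 V) (f : V → Fin 3) (hf : IsHom G H0 f)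
    (j : Fin P0.J.k) (t : Fin (P0.J.ar j) → V) (h : Derives P0 G j t) : t ∈ Sd f j := by
  induction h with
  | rule r hr val he hi ih =>
    rcases memr' r hr with rfl | rfl | rfl | rfl | rfl | rfl | rfl | rfl
    · exact hf _ _ (he _ mem0)
    · exact hf _ _ (he _ mem0) (ih _ mem0) (ih _ mem1)
    · exact hf _ _ (he _ mem0) (ih _ mem0)
    · have h1 : f (val (1 : Fin 2)) = sg (f (val (0 : Fin 2))) := ih _ mem0
      show f (val (0 : Fin 2)) = sg (f (val (1 : Fin 2)))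
      rw [h1, sg_sg]
    · have h1 : f (val (1 : Fin 4)) = sg (f (val (0 : Fin 4))) := ih _ mem0
      have h2 : f (val (2 : Fin 4)) = sg (f (val (1 : Fin 4))) := ih _ mem1
      have h3 : f (val (3 : Fin 4)) = sg (f (val (2 : Fin 4))) := ih _ mem2
      show f (val (3 : Fin 4)) = sg (f (val (0 : Fin 4)))
      rw [h3, h2, h1, sg_sg]
    · have h1 : f (val (0 : Fin 1)) = sg (f (val (0 : Fin 1))) := ih _ mem0
      exact sg_fix _ h1
    · have h1 : f (val (1 : Fin 2)) = sg (f (val (0 : Fin 2))) := ih _ mem0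
      have h2 : f (val (0 : Fin 2)) = 2 := ih _ mem1
      show f (val (1 : Fin 2)) = 2
      rw [h1, h2, sg_two]
    · have h1 : f (val (0 : Fin 1)) ≠ 2 := hf _ _ (he _ mem0)
      have h2 : f (val (0 : Fin 1)) = 2 := ih _ mem0
      exact absurd h2 h1

def dF {V : Type} (G : Str L0 V) (x : V) : Prop :=
  Derives P0 G ⟨0, by decide⟩ (![x] : Fin 1 → V)
def dO {V : Type} (G : Str L0 V) (x y : V) : Prop :=
  Derives P0 G ⟨1, by decide⟩ (![x, y] : Fin 2 → V)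

lemma comp1 {V : Type} {v : ℕ} (val : Fin v → V) (x : Fin v) :
    val ∘ (![x] : Fin 1 → Fin v) = ![val x] := by
  funext i; fin_cases i; rfl

lemma comp2 {V : Type} {v : ℕ} (val : Fin v → V) (x y : Fin v) :
    val ∘ (![x, y] : Fin 2 → Fin v) = ![val x, val y] := by
  funext i; fin_cases i <;> rfl

lemma comp3 {V : Type} {v : ℕ} (val : Fin v → V) (x y z : Fin v) :
    val ∘ (![x, y, z] : Fin 3 → Fin v) = ![val x, val y, val z] := by
  funext i; fin_cases i <;> rfl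

section
variable {V : Type} (G : Str L0 V) {v : ℕ} (val : Fin v → V)

lemma dF_iff (x : Fin v) : Derives P0 G (aF x).sym (val ∘ (aF x).args) ↔ dF G (val x) := by
  unfold dF; rw [← comp1]; rfl

lemma dO_iff (x y : Fin v) :
    Derives P0 G (aO x y).sym (val ∘ (aO x y).args) ↔ dO G (val x) (val y) := by
  unfold dO; rw [← comp2]; rfl

lemma eA_iff (x : Fin v) : val ∘ (eA x).args ∈ G (eA x).sym ↔ rA G (val x) := by
  unfold rA; rw [← comp1]; rfl

lemma eB_iff (x : Fin v) : val ∘ (eB x).args ∈ G (eB x).sym ↔ rB G (val x) := by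
  unfold rB; rw [← comp1]; rfl

lemma eR_iff (x y z : Fin v) :
    val ∘ (eR x y z).args ∈ G (eR x y z).sym ↔ rR G (val x) (val y) (val z) := by
  unfold rR; rw [← comp3]; rfl

lemma eS_iff (x y z : Fin v) :
    val ∘ (eS x y z).args ∈ G (eS x y z).sym ↔ rS G (val x) (val y) (val z) := by
  unfold rS; rw [← comp3]; rfl

end

section
variable {V : Type} {G : Str L0 V}

lemma all0 {α : Type} {p : α → Prop} : ∀ a ∈ ([] : List α), p a := fun _ h => by cases h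

lemma all1 {α : Type} {p : α → Prop} {a : α} (h : p a) : ∀ x ∈ [a], p x :=
  List.forall_mem_cons.2 ⟨h, all0⟩

lemma all2 {α : Type} {p : α → Prop} {a b : α} (h : p a) (h' : p b) : ∀ x ∈ [a, b], p x :=
  List.forall_mem_cons.2 ⟨h, all1 h'⟩

lemma all3 {α : Type} {p : α → Prop} {a b c : α} (h : p a) (h' : p b) (h'' : p c) :
    ∀ x ∈ [a, b, c], p x :=
  List.forall_mem_cons.2 ⟨h, all2 h' h''⟩

lemma memr (r : Rule L0 J0) (h : r ∈ [r1, r2, r3, r4, r5, r6, r7, r8]) : r ∈ P0.rules := h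

lemma d1 {x : V} (h : rA G x) : dF G x :=
  (dF_iff G (![x] : Fin 1 → V) 0).1 <|
    Derives.rule (P := P0) (G := G) r1 (memr _ (by simp)) (![x] : Fin 1 → V)
      (all1 ((eA_iff G (![x] : Fin 1 → V) 0).2 h)) all0

lemma d2 {x y z : V} (h : rR G x y z) (h1 : dF G x) (h2 : dF G y) : dF G z :=
  (dF_iff G (![x, y, z] : Fin 3 → V) 2).1 <|
    Derives.rule (P := P0) (G := G) r2 (memr _ (by simp)) (![x, y, z] : Fin 3 → V)
      (all1 ((eR_iff G (![x, y, z] : Fin 3 → V) 0 1 2).2 h))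
      (all2 ((dF_iff G (![x, y, z] : Fin 3 → V) 0).2 h1)
        ((dF_iff G (![x, y, z] : Fin 3 → V) 1).2 h2))

lemma d3 {x y z : V} (h : rS G x y z) (h1 : dF G x) : dO G y z :=
  (dO_iff G (![x, y, z] : Fin 3 → V) 1 2).1 <|
    Derives.rule (P := P0) (G := G) r3 (memr _ (by simp)) (![x, y, z] : Fin 3 → V)
      (all1 ((eS_iff G (![x, y, z] : Fin 3 → V) 0 1 2).2 h))
      (all1 ((dF_iff G (![x, y, z] : Fin 3 → V) 0).2 h1))

lemma d4 {x y : V} (h : dO G x y) : dO G y x :=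
  (dO_iff G (![x, y] : Fin 2 → V) 1 0).1 <|
    Derives.rule (P := P0) (G := G) r4 (memr _ (by simp)) (![x, y] : Fin 2 → V) all0
      (all1 ((dO_iff G (![x, y] : Fin 2 → V) 0 1).2 h))

lemma d5 {x y z w : V} (h1 : dO G x y) (h2 : dO G y z) (h3 : dO G z w) : dO G x w :=
  (dO_iff G (![x, y, z, w] : Fin 4 → V) 0 3).1 <|
    Derives.rule (P := P0) (G := G) r5 (memr _ (by simp)) (![x, y, z, w] : Fin 4 → V) all0
      (all3 ((dO_iff G (![x, y, z, w] : Fin 4 → V) 0 1).2 h1)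
        ((dO_iff G (![x, y, z, w] : Fin 4 → V) 1 2).2 h2)
        ((dO_iff G (![x, y, z, w] : Fin 4 → V) 2 3).2 h3))

lemma d6 {x : V} (h : dO G x x) : dF G x :=
  (dF_iff G (![x] : Fin 1 → V) 0).1 <|
    Derives.rule (P := P0) (G := G) r6 (memr _ (by simp)) (![x] : Fin 1 → V) all0
      (all1 ((dO_iff G (![x] : Fin 1 → V) 0 0).2 h))

lemma d7 {x y : V} (h : dO G x y) (h1 : dF G x) : dF G y :=
  (dF_iff G (![x, y] : Fin 2 → V) 1).1 <|
    Derives.rule (P := P0) (G := G) r7 (memr _ (by simp)) (![x, y] : Fin 2 → V) all0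
      (all2 ((dO_iff G (![x, y] : Fin 2 → V) 0 1).2 h)
        ((dF_iff G (![x, y] : Fin 2 → V) 0).2 h1))

lemma d8 {x : V} (h : rB G x) (h1 : dF G x) : ∃ t, Derives P0 G P0.goal t :=
  ⟨_, Derives.rule (P := P0) (G := G) r8 (memr _ (by simp)) (![x] : Fin 1 → V)
    (all1 ((eB_iff G (![x] : Fin 1 → V) 0).2 h))
    (all1 ((dF_iff G (![x] : Fin 1 → V) 0).2 h1))⟩

/-- Being joined by a walk of derived odd edges. -/
def conn (G : Str L0 V) : Setoid V where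
  r a b := a = b ∨ dO G a b ∨ ∃ c, dO G a c ∧ dO G c b
  iseqv := by
    refine ⟨fun a => Or.inl rfl, ?_, ?_⟩
    · rintro a b (rfl | h | ⟨c, h1, h2⟩)
      · exact Or.inl rfl
      · exact Or.inr (Or.inl (d4 h))
      · exact Or.inr (Or.inr ⟨c, d4 h2, d4 h1⟩)
    · rintro a b c (rfl | h | ⟨d, h1, h2⟩) h'
      · exact h'
      · rcases h' with rfl | h' | ⟨e, h3, h4⟩
        · exact Or.inr (Or.inl h)
        · exact Or.inr (Or.inr ⟨b, h, h'⟩)
        · exact Or.inr (Or.inl (d5 h h3 h4))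
      · rcases h' with rfl | h' | ⟨e, h3, h4⟩
        · exact Or.inr (Or.inr ⟨d, h1, h2⟩)
        · exact Or.inr (Or.inl (d5 h1 h2 h'))
        · exact Or.inr (Or.inr ⟨e, d5 h1 h2 h3, h4⟩)

lemma complete (h : ¬ ∃ t, Derives P0 G P0.goal t) : ∃ f : V → Fin 3, IsHom G H0 f := by
  classical
  let rep : V → V := fun a => (Quotient.mk (conn G) a).out
  have hrep : ∀ a, (conn G).r (rep a) a := fun a => Quotient.mk_out (s := conn G) a
  have hrep2 : ∀ a b, dO G a b → rep a = rep b := fun a b hab => by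
    have : Quotient.mk (conn G) a = Quotient.mk (conn G) b :=
      Quotient.sound (Or.inr (Or.inl hab))
    simp only [rep, this]
  let f : V → Fin 3 := fun a => if dF G a then 2 else if dO G (rep a) a then 1 else 0
  have hf : ∀ a, f a = 2 ↔ dF G a := fun a => by
    simp only [f]
    split_ifs with h1 h2 <;> simp [h1]
  refine ⟨f, (isHom_iff G f).2 ⟨fun x hx => (hf x).2 (d1 hx), fun x hx hx' => h (d8 hx ((hf x).1 hx')),
    fun u v w hr h1 h2 => (hf w).2 (d2 hr ((hf u).1 h1) ((hf v).1 h2)), fun w a b hs hw => ?_⟩⟩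
  have hab : dO G a b := d3 hs ((hf w).1 hw)
  by_cases ha : dF G a
  · rw [(hf a).2 ha, (hf b).2 (d7 hab ha)]; rfl
  · have hb : ¬ dF G b := fun hb => ha (d7 (d4 hab) hb)
    simp only [f, if_neg ha, if_neg hb, ← hrep2 a b hab]
    by_cases h1 : dO G (rep a) a
    · have h2 : ¬ dO G (rep a) b := fun h2 => ha (d6 (d5 (d4 h1) h2 (d4 hab)))
      rw [if_pos h1, if_neg h2]; rfl
    · have h2 : dO G (rep a) b := by
        rcases hrep a with h3 | h3 | ⟨c, h3, h4⟩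
        · rw [h3]; exact hab
        · exact absurd h3 h1
        · exact d5 h3 h4 hab
      rw [if_neg h1, if_pos h2]; rfl

end

theorem boundedWidth_H0 : BoundedWidth H0 := by
  refine ⟨P0, fun n G => ⟨?_, fun h => ?_⟩⟩
  · rintro ⟨t, ht⟩ ⟨f, hf⟩
    exact sound G f hf _ t ht
  · by_contra h'
    exact h (complete h')

end Pool.Agent.P.MP_501d1b_lc
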