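import Mathlib

/-! Definitions for the statement: finite relational languages, homomorphisms, Datalog,
bounded width, Borel codes, the coded Borel homomorphism problem and the pointclasses. -/

namespace Pool.Agent.P.MP_501d1b_lc

/-- A finite relational language: `k` relation symbols, the `i`-th of arity `ar i`. -/
structure Sig where
  k : ℕ
  ar : Fin k → ℕ

/-- An `L`-structure with underlying set `V`: one set of tuples for each relation symbol. -/
def Str (L : Sig) (V : Type) : Type := (i : Fin L.k) → Set (Fin (L.ar i) → V)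

/-- `f` is a homomorphism from `G` to `H`: it sends related tuples to related tuples. -/
def IsHom {L : Sig} {V W : Type} (G : Str L V) (H : Str L W) (f : V → W) : Prop :=
  ∀ i, ∀ t ∈ G i, f ∘ t ∈ H i

/-- An atomic formula `R(x₁, …, xₙ)` of the language `L` with variables among `Fin v`. -/
structure Atom (L : Sig) (v : ℕ) where
  sym : Fin L.k
  args : Fin (L.ar sym) → Fin v

/-- A Datalog rule `head :- body` with input (EDB) language `L` and derived (IDB) language `J`;
the body is a finite list of `L`-atoms and a finite list of `J`-atoms, and every variable of the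
head occurs in the body. -/
structure Rule (L J : Sig) where
  v : ℕ
  head : Atom J v
  edb : List (Atom L v)
  idb : List (Atom J v)
  safe : ∀ m, (∃ a ∈ edb, ∃ m', a.args m' = head.args m) ∨
    (∃ a ∈ idb, ∃ m', a.args m' = head.args m)

/-- A Datalog program: a finite IDB language, finitely many rules and a nullary goal symbol. -/
structure Program (L : Sig) where
  J : Sig
  rules : List (Rule L J)
  goal : Fin J.k
  goal_ar : J.ar goal = 0

/-- The facts that the program `P` derives on the input structure `G` (least fixed point). -/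
inductive Derives {L : Sig} (P : Program L) {V : Type} (G : Str L V) :
    (j : Fin P.J.k) → (Fin (P.J.ar j) → V) → Prop
  | rule (r : Rule L P.J) (hr : r ∈ P.rules) (val : Fin r.v → V)
      (he : ∀ a ∈ r.edb, val ∘ a.args ∈ G a.sym)
      (hi : ∀ a ∈ r.idb, Derives P G a.sym (val ∘ a.args)) :
      Derives P G r.head.sym (val ∘ r.head.args)

/-- `H` has bounded width: some Datalog program derives its goal on exactly those finite
structures that have no homomorphism to `H`. -/
def BoundedWidth {L : Sig} {A : Type} (H : Str L A) : Prop :=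
  ∃ P : Program L, ∀ (n : ℕ) (G : Str L (Fin n)),
    (∃ t, Derives P G P.goal t) ↔ ¬ ∃ f : Fin n → A, IsHom G H f

/-- Solovay's Borel codes over an enumerated basis `I` of `Y` (as in Jech, Set Theory, Ch. 25):
`Codes I c A` says that `c` is a Borel code and that it codes the set `A`. -/
inductive Codes {Y : Type} (I : ℕ → Set Y) : (ℕ → ℕ) → Set Y → Prop
  | opn (c : ℕ → ℕ) (h : 1 < c 0) : Codes I c (⋃ n, ⋃ (_ : c (n + 1) = 1), I n)
  | compl (c : ℕ → ℕ) (A : Set Y) (h : c 0 = 0) (hA : Codes I (fun n => c (n + 1)) A) :
      Codes I c Aᶜ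
  | union (c : ℕ → ℕ) (A : ℕ → Set Y) (h : c 0 = 1)
      (hA : ∀ i, Codes I (fun n => c (Nat.pair i n + 1)) (A i)) : Codes I c (⋃ i, A i)

/-- `CSP_B(H)` on `X`: the reals `c` whose `i`-th columns are Borel codes for the relations of a
structure on `X` that has a Borel homomorphism to the finite structure `H`. Here `I i` enumerates
a basis of the power of `X` in which the `i`-th relation lives. -/
def CSPB {L : Sig} {m : ℕ} (H : Str L (Fin m)) {X : Type} [TopologicalSpace X]
    (I : (i : Fin L.k) → ℕ → Set (Fin (L.ar i) → X)) : Set (ℕ → ℕ) :=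
  {c | ∃ G : Str L X, (∀ i, Codes (I i) (fun n => c (Nat.pair i n)) (G i)) ∧
    ∃ f : X → Fin m, (∀ a, @MeasurableSet X (borel X) (f ⁻¹' {a})) ∧ IsHom G H f}

/-- Boldface `Π¹₁` (coanalytic): the complement is analytic. -/
def IsPi11 {Y : Type} [TopologicalSpace Y] (S : Set Y) : Prop :=
  MeasureTheory.AnalyticSet Sᶜ

/-- Boldface `Σ¹₂`: a projection along Baire space of a `Π¹₁` set. -/
def IsSigma12 {Y : Type} [TopologicalSpace Y] (S : Set Y) : Prop :=
  ∃ A : Set (Y × (ℕ → ℕ)), IsPi11 A ∧ S = Prod.fst '' A

/-- `Σ¹₂`-hard (Kechris 22.9): every `Σ¹₂` subset of a zero-dimensional Polish space is a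
continuous preimage of `C`. -/
def Sigma12Hard (C : Set (ℕ → ℕ)) : Prop :=
  ∀ (Y : Type) [TopologicalSpace Y] [PolishSpace Y],
    TopologicalSpace.IsTopologicalBasis {U : Set Y | IsClopen U} →
    ∀ S : Set Y, IsSigma12 S → ∃ g : Y → (ℕ → ℕ), Continuous g ∧ S = g ⁻¹' C

end Pool.Agent.P.MP_501d1b_lc
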