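import Pool.Agent.P.MP_501d1b_lc.Datalog

/-! The infinite gadget: a countable disjunction is simulated with the bit flip graph on Cantor
space, which has no Borel 2-colouring although every finite part of it has a continuous one. -/

namespace Pool.Agent.P.MP_501d1b_lc

open Set Filter Topology

def flp (n : ℕ) (η : ℕ → Bool) : ℕ → Bool := Function.update η n (!η n)

lemma flp_flp (n : ℕ) (η : ℕ → Bool) : flp n (flp n η) = η := by
  funext i
  by_cases h : i = n
  · subst h; simp [flp]
  · simp [flp, h]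

lemma flp_ne {n i : ℕ} (h : i ≠ n) (η : ℕ → Bool) : flp n η i = η i := by simp [flp, h]

lemma continuous_flp (n : ℕ) : Continuous (flp n) := by
  refine continuous_pi fun i => ?_
  by_cases h : i = n
  · subst h
    simp only [flp, Function.update_self]
    exact (continuous_of_discreteTopology (f := fun b : Bool => !b)).comp (continuous_apply i)
  · simp only [flp_ne h]; exact continuous_apply i

def flpH (n : ℕ) : (ℕ → Bool) ≃ₜ (ℕ → Bool) where
  toFun := flp n
  invFun := flp n
  left_inv := flp_flp n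
  right_inv := flp_flp n
  continuous_toFun := continuous_flp n
  continuous_invFun := continuous_flp n

/-- The bit flip graph has no Borel 2-colouring. -/
lemma no_two_colouring (A : Set (ℕ → Bool)) (hA : MeasurableSet A)
    (h : ∀ n η, η ∈ A ↔ flp n η ∉ A) : False := by
  obtain ⟨U, hU, hAU⟩ := hA.residualEq_isOpen
  have hT : {η | η ∈ A ↔ η ∈ U} ∈ residual (ℕ → Bool) := by
    filter_upwards [hAU] with η hη
    exact hη.to_iff
  have hT2 : ∀ n, Dense ({η | η ∈ A ↔ η ∈ U} ∩ flp n ⁻¹' {η | η ∈ A ↔ η ∈ U}) := fun n =>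
    dense_of_mem_residual (inter_mem hT
      (tendsto_residual_of_isOpenMap (continuous_flp n) (flpH n).isOpenMap hT))
  rcases U.eq_empty_or_nonempty with rfl | ⟨η0, hη0⟩
  · obtain ⟨η, h1, h2⟩ := (hT2 0).nonempty
    simp only [mem_empty_iff_false, iff_false, mem_preimage, mem_ofPred_eq] at h1 h2
    exact h1 ((h 0 η).2 h2)
  · obtain ⟨I, u, hu, hsub⟩ := isOpen_pi_iff.1 hU η0 hη0
    obtain ⟨n, hn⟩ := Infinite.exists_notMem_finset I
    have hV : IsOpen ((I : Set ℕ).pi u) :=
      isOpen_set_pi I.finite_toSet fun a _ => isOpen_discrete _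
    obtain ⟨η, hη, h1, h2⟩ := (hT2 n).inter_open_nonempty _ hV ⟨η0, fun a ha => (hu a ha).2⟩
    have h3 : flp n η ∈ (I : Set ℕ).pi u := fun a ha => by
      have hne : a ≠ n := by rintro rfl; exact hn ha
      rw [flp_ne hne]; exact hη a ha
    exact (h n η).1 (h1.2 (hsub hη)) (h2.2 (hsub h3))

/-- Parity of the first `m` bits. -/
def par : ℕ → (ℕ → Bool) → Bool
  | 0, _ => false
  | m + 1, η => xor (par m η) (η m)

lemma measurable_par (m : ℕ) : Measurable (par m) := by
  induction m with
  | zero => exact measurable_const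
  | succ m ih =>
    exact (measurable_of_countable (fun p : Bool × Bool => xor p.1 p.2)).comp
      (ih.prodMk (measurable_pi_apply m))

lemma par_flp_ge {m n : ℕ} (h : m ≤ n) (η : ℕ → Bool) : par m (flp n η) = par m η := by
  induction m with
  | zero => rfl
  | succ m ih => simp only [par, ih (by omega), flp_ne (show m ≠ n by omega)]

lemma par_flp_lt {m n : ℕ} (h : n < m) (η : ℕ → Bool) : par m (flp n η) = !par m η := by
  induction m with
  | zero => omega
  | succ m ih =>
    rcases Nat.lt_succ_iff_lt_or_eq.1 h with h' | rfl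
    · simp only [par, ih h', flp_ne (show m ≠ n by omega)]
      cases par m η <;> cases η m <;> rfl
    · have h1 : flp n η n = !η n := by simp [flp]
      simp only [par, par_flp_ge le_rfl, h1]
      cases par n η <;> cases η n <;> rfl

abbrev X0 (Q : Type) : Type := Q × ℕ × (ℕ → Bool)

def yy {Q : Type} (q : Q) (η : ℕ → Bool) : X0 Q := (q, 0, η)
def zz {Q : Type} (q : Q) : X0 Q := (q, 1, fun _ => false)
def ww {Q : Type} (q : Q) (n : ℕ) : X0 Q := (q, n + 2, fun _ => false)

/-- The instance attached to a system of positions with countable disjunctions `ch`,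
implications `Imp`, required positions `Root` and forbidden positions `Dead`. -/
def Gad {Q : Type} (Root Dead : Set Q) (Imp : Set (Q × Q)) (ch : Q → ℕ → Q) : Str L0 (X0 Q) :=
  mk4 (fun v => (v.1 ∈ Dead ∧ v = zz v.1) ∨ v = ww v.1 0)
    (fun v => v.1 ∈ Root ∧ v = zz v.1)
    (fun u v w => (∃ n, u = ww u.1 n ∧ v = zz (ch u.1 n) ∧ w = ww u.1 (n + 1)) ∨
      (u = yy u.1 u.2.2 ∧ v = u ∧ w = zz u.1) ∨
      ((w.1, u.1) ∈ Imp ∧ u = zz u.1 ∧ v = u ∧ w = zz w.1))
    (fun w y y' => ∃ n, w = ww w.1 n ∧ y = yy w.1 y.2.2 ∧ y' = yy w.1 (flp n y.2.2))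

/-- A set of positions that supports itself. -/
def Supp {Q : Type} (Root Dead : Set Q) (Imp : Set (Q × Q)) (ch : Q → ℕ → Q) (Z : Set Q) : Prop :=
  Root ⊆ Z ∧ (∀ q ∈ Z, q ∉ Dead) ∧ (∀ q ∈ Z, ∃ k, ch q k ∈ Z) ∧
    ∀ q q', (q, q') ∈ Imp → q ∈ Z → q' ∈ Z

lemma measurable_sInf {α : Type} [MeasurableSpace α] {p : α → ℕ → Prop}
    (hp : ∀ n, MeasurableSet {a | p a n}) : Measurable fun a => sInf {n | p a n} := by
  refine measurable_to_countable' fun n => ?_
  have : (fun a => sInf {n | p a n}) ⁻¹' {n} =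
      ({a | p a n} ∩ ⋂ m, ⋂ (_ : m < n), {a | p a m}ᶜ) ∪
        ({_a | n = 0} ∩ ⋂ m, {a | p a m}ᶜ) := by
    ext a
    simp only [mem_preimage, mem_singleton_iff, mem_union, mem_inter_iff, mem_ofPred_eq,
      mem_iInter, mem_compl_iff]
    constructor
    · rintro rfl
      by_cases hne : {n | p a n}.Nonempty
      · exact Or.inl ⟨Nat.sInf_mem hne, fun m hm => Nat.notMem_of_lt_sInf hm⟩
      · right
        rw [not_nonempty_iff_eq_empty] at hne
        refine ⟨by rw [hne]; simp, fun m hm => ?_⟩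
        have : m ∈ {n | p a n} := hm
        rw [hne] at this; exact this
    · rintro (⟨h1, h2⟩ | ⟨rfl, h2⟩)
      · refine le_antisymm (Nat.sInf_le h1) ?_
        by_contra hlt
        exact h2 _ (not_le.1 hlt) (Nat.sInf_mem ⟨n, h1⟩)
      · have : {n | p a n} = ∅ := eq_empty_of_forall_notMem h2
        rw [this]; simp
  rw [this]
  exact ((hp n).inter (MeasurableSet.iInter fun m => MeasurableSet.iInter fun _ =>
    (hp m).compl)).union ((MeasurableSet.const _).inter
      (MeasurableSet.iInter fun m => (hp m).compl))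

def val0 (K j : ℕ) (η : ℕ → Bool) : Fin 3 :=
  match j with
  | 0 => if K = 0 then 2 else if par K η then 1 else 0
  | 1 => if K = 0 then 2 else 0
  | n + 2 => if K ≠ 0 ∧ K ≤ n then 0 else 2

lemma measurable_val0 : Measurable fun p : ℕ × ℕ × (ℕ → Bool) => val0 p.1 p.2.1 p.2.2 := by
  refine measurable_from_prod_countable_right fun K => ?_
  refine measurable_from_prod_countable_right fun j => ?_
  match j with
  | 0 =>
    exact (measurable_of_countable
      (fun b : Bool => (if K = 0 then 2 else if b then 1 else 0 : Fin 3))).comp (measurable_par K)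
  | 1 => exact measurable_const (a := (if K = 0 then 2 else 0 : Fin 3))
  | n + 2 => exact measurable_const (a := (if K ≠ 0 ∧ K ≤ n then 0 else 2 : Fin 3))

lemma val0_y (K : ℕ) (η : ℕ → Bool) : val0 K 0 η = 2 ↔ K = 0 := by
  simp only [val0]; split_ifs with h h' <;> simp [h]

lemma val0_z (K : ℕ) (η : ℕ → Bool) : val0 K 1 η = 2 ↔ K = 0 := by
  simp only [val0]; split_ifs with h <;> simp [h]

lemma val0_w (K n : ℕ) (η : ℕ → Bool) : val0 K (n + 2) η = 2 ↔ ¬ (K ≠ 0 ∧ K ≤ n) := by
  simp only [val0]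
  split_ifs with h
  · exact ⟨fun h' => absurd h' (by decide), fun h' => absurd h h'⟩
  · exact ⟨fun _ => h, fun _ => rfl⟩

lemma val0_flp (K n : ℕ) (η : ℕ → Bool) (h : ¬ (K ≠ 0 ∧ K ≤ n)) :
    val0 K 0 (flp n η) = sg (val0 K 0 η) := by
  simp only [val0]
  by_cases h0 : K = 0
  · simp only [if_pos h0]; rfl
  · simp only [if_neg h0]
    rw [par_flp_lt (show n < K by omega)]
    cases par K η <;> rfl

lemma isHom_mk4 {V : Type} (A B : V → Prop) (R S : V → V → V → Prop) (f : V → Fin 3) :
    IsHom (mk4 A B R S) H0 f ↔ (∀ x, A x → f x = 2) ∧ (∀ x, B x → f x ≠ 2) ∧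
      (∀ u v w, R u v w → f u = 2 → f v = 2 → f w = 2) ∧
      (∀ w y y', S w y y' → f w = 2 → f y' = sg (f y)) := isHom_iff _ f

theorem gad_iff {Q : Type} [MeasurableSpace Q] (Root Dead : Set Q) (Imp : Set (Q × Q))
    (ch : Q → ℕ → Q) (hch : ∀ k, Measurable fun q => ch q k) :
    (∃ f : X0 Q → Fin 3, Measurable f ∧ IsHom (Gad Root Dead Imp ch) H0 f) ↔
      ∃ Z, MeasurableSet Z ∧ Supp Root Dead Imp ch Z := by
  classical
  constructor
  · rintro ⟨f, hfm, hf⟩
    obtain ⟨hA, hB, hR, hS⟩ := (isHom_mk4 _ _ _ _ f).1 hf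
    have hzz : Measurable (zz : Q → X0 Q) := measurable_id.prodMk measurable_const
    refine ⟨{q | f (zz q) ≠ 2}, ((hfm.comp hzz) (measurableSet_singleton 2)).compl,
      fun q hq => hB (zz q) ⟨hq, rfl⟩, fun q hq hd => hq (hA (zz q) (Or.inl ⟨hd, rfl⟩)),
      fun q hq => ?_, fun q q' hi hq hq' =>
        hq (hR (zz q') (zz q') (zz q) (Or.inr (Or.inr ⟨hi, rfl, rfl, rfl⟩)) hq' hq')⟩
    by_contra hcon
    have hc : ∀ k, f (zz (ch q k)) = 2 := fun k => by
      by_contra h'
      exact hcon ⟨k, h'⟩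
    have hw : ∀ n, f (ww q n) = 2 := fun n => by
      induction n with
      | zero => exact hA (ww q 0) (Or.inr rfl)
      | succ n ih => exact hR (ww q n) (zz (ch q n)) (ww q (n + 1)) (Or.inl ⟨n, rfl, rfl, rfl⟩) ih (hc n)
    have hy : ∀ η, f (yy q η) ≠ 2 := fun η h' =>
      hq (hR (yy q η) (yy q η) (zz q) (Or.inr (Or.inl ⟨rfl, rfl, rfl⟩)) h' h')
    have hs : ∀ n η, f (yy q (flp n η)) = sg (f (yy q η)) := fun n η =>
      hS (ww q n) (yy q η) (yy q (flp n η)) ⟨n, rfl, rfl, rfl⟩ (hw n)
    have hyy : Measurable (yy q) := measurable_const.prodMk (measurable_const.prodMk measurable_id)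
    refine no_two_colouring {η | f (yy q η) = 0} ((hfm.comp hyy) (measurableSet_singleton 0))
      fun n η => ?_
    simp only [mem_ofPred_eq, hs]
    have := hy η
    revert this
    generalize f (yy q η) = a
    revert a; decide
  · rintro ⟨Z, hZ, h0, h1, h2, h3⟩
    let K : Q → ℕ := fun q => if q ∈ Z then sInf {k | ch q k ∈ Z} + 1 else 0
    have hK : Measurable K :=
      Measurable.ite hZ ((measurable_sInf fun k => hch k hZ).add_const 1) measurable_const
    have hK0 : ∀ q, K q = 0 ↔ q ∉ Z := fun q => by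
      simp only [K]; split_ifs with h <;> simp [h]
    have hK1 : ∀ q, K q ≠ 0 → ch q (K q - 1) ∈ Z := fun q hq => by
      have hq' : q ∈ Z := by by_contra h'; exact hq ((hK0 q).2 h')
      simp only [K, if_pos hq', Nat.add_sub_cancel]
      exact Nat.sInf_mem (h2 q hq')
    refine ⟨fun v => val0 (K v.1) v.2.1 v.2.2,
      measurable_val0.comp ((hK.comp measurable_fst).prodMk measurable_snd),
      (isHom_mk4 _ _ _ _ _).2 ⟨?_, ?_, ?_, ?_⟩⟩
    · rintro v (⟨hd, hv⟩ | hv)
      · generalize v.1 = q at hd hv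
        subst hv
        exact (val0_z (K q) _).2 ((hK0 _).2 fun h => h1 _ h hd)
      · generalize v.1 = q at hv
        subst hv
        exact (val0_w (K q) 0 _).2 (by omega)
    · rintro v ⟨hr, hv⟩
      generalize v.1 = q at hr hv
      subst hv
      exact fun h => (hK0 _).1 ((val0_z (K q) _).1 h) (h0 hr)
    · rintro u v w (⟨n, hu, hv, hw⟩ | ⟨hu, hv, hw⟩ | ⟨hi, hu, hv, hw⟩)
      · generalize u.1 = q at hu hv hw
        subst hu hv hw
        intro e1 e2
        have e1' := (val0_w (K q) n _).1 e1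
        have e2' := (val0_z (K (ch q n)) _).1 e2
        refine (val0_w (K q) (n + 1) _).2 ?_
        rintro ⟨e3, e4⟩
        have e5 : K q - 1 = n := by omega
        have := hK1 q e3
        rw [e5] at this
        exact (hK0 _).1 e2' this
      · generalize u.1 = q, u.2.2 = η at hu hw
        subst hu hw
        intro e1 _
        exact (val0_z (K q) _).2 ((val0_y (K q) _).1 e1)
      · generalize u.1 = q, w.1 = q' at hu hw hi
        subst hu hw
        intro e1 _
        exact (val0_z (K q') _).2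
          ((hK0 _).2 fun h => (hK0 _).1 ((val0_z (K q) _).1 e1) (h3 _ _ hi h))
    · rintro w y y' ⟨n, hw, hy, hy'⟩
      generalize w.1 = q, y.2.2 = η at hw hy hy'
      subst hw hy hy'
      intro e1
      exact val0_flp (K q) n η ((val0_w (K q) n _).1 e1)

end Pool.Agent.P.MP_501d1b_lc
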