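import Pool.Agent.P.MP_501d1b_lc.Insep
import Pool.Agent.P.MP_501d1b_lc.Coding

/-! The coded problem is `Σ¹₂`-hard. -/

namespace Pool.Agent.P.MP_501d1b_lc

open Set Filter Topology TopologicalSpace MeasureTheory

lemma exists_branch {P : ℕ → Prop} (h0 : P 0) (h : ∀ u, P u → ∃ k, P (Nat.pair u k + 1)) :
    ∃ r, ∀ n, P (seg r n) := by
  choose κ hκ using h
  let s : ℕ → {u // P u} := fun n =>
    Nat.rec ⟨0, h0⟩ (fun _ u => ⟨Nat.pair u.1 (κ u.1 u.2) + 1, hκ u.1 u.2⟩) n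
  refine ⟨fun n => κ (s n).1 (s n).2, fun n => ?_⟩
  have : ∀ n, seg (fun n => κ (s n).1 (s n).2) n = (s n).1 := fun n => by
    induction n with
    | zero => rfl
    | succ n ih => simp only [seg, ih]; rfl
  rw [this]; exact (s n).2

def join (x y : ℕ → ℕ) : ℕ → ℕ := fun n => Nat.pair (x n) (y n)

lemma continuous_join {T : Type} [TopologicalSpace T] {x y : T → ℕ → ℕ} (hx : Continuous x)
    (hy : Continuous y) : Continuous fun t => join (x t) (y t) :=
  continuous_pi fun n => continuous_pair ((continuous_apply n).comp hx)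
    ((continuous_apply n).comp hy)

def lft (r : ℕ → ℕ) : ℕ → ℕ := fun n => (r n).unpair.1
def rgt (r : ℕ → ℕ) : ℕ → ℕ := fun n => (r n).unpair.2

lemma continuous_lft : Continuous lft :=
  continuous_pi fun n => (continuous_of_discreteTopology
    (f := fun a : ℕ => a.unpair.1)).comp (continuous_apply n)

lemma continuous_rgt : Continuous rgt :=
  continuous_pi fun n => (continuous_of_discreteTopology
    (f := fun a : ℕ => a.unpair.2)).comp (continuous_apply n)

lemma lft_join (x y : ℕ → ℕ) : lft (join x y) = x := by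
  funext n; simp [lft, join]

lemma rgt_join (x y : ℕ → ℕ) : rgt (join x y) = y := by
  funext n; simp [rgt, join]

lemma tree_of_sigma12 {S : Set (ℕ → ℕ)} (hS : IsSigma12 S) :
    ∃ T : (ℕ → ℕ) → (ℕ → ℕ) → ℕ → ℕ, Continuous (fun v : (ℕ → ℕ) × (ℕ → ℕ) => T v.1 v.2) ∧
      ∀ x, x ∈ S ↔ ∃ y, WF (T x y) := by
  obtain ⟨A, hA, rfl⟩ := hS
  have hc : Continuous fun r : ℕ → ℕ => (lft r, rgt r) := continuous_lft.prodMk continuous_rgt
  obtain ⟨e, he⟩ := tree_of_analytic (AnalyticSet.preimage hA hc)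
  refine ⟨fun x y => Tr (phi e (join x y)) 0, continuous_Tr.comp
    (continuous_phi continuous_const (continuous_join continuous_fst continuous_snd)), fun x => ?_⟩
  have key : ∀ y, (x, y) ∈ A ↔ WF (Tr (phi e (join x y)) 0) := fun y => by
    have := he (join x y)
    simp only [mem_preimage, mem_compl_iff, lft_join, rgt_join] at this
    exact not_iff_not.1 this
  constructor
  · rintro ⟨⟨_, y⟩, hy, rfl⟩
    exact ⟨y, (key y).1 hy⟩
  · rintro ⟨y, hy⟩
    exact ⟨(x, y), (key y).2 hy, rfl⟩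

def ch1 (q : (ℕ → ℕ) × ℕ) (k : ℕ) : (ℕ → ℕ) × ℕ :=
  match q.2 with
  | 0 => (q.1, min k 2 + 1)
  | 1 => (sub q.1 k, 2)
  | 2 => q
  | u + 3 => (q.1, Nat.pair u k + 1 + 3)

lemma ch1_one (p : ℕ → ℕ) (k : ℕ) : ch1 (p, 1) k = (sub p k, 2) := rfl

lemma measurable_ch1 (k : ℕ) : Measurable fun q => ch1 q k := by
  refine measurable_from_prod_countable_left fun j => ?_
  match j with
  | 0 => exact measurable_id.prodMk measurable_const
  | 1 => exact (measurable_sub measurable_id measurable_const).prodMk measurable_const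
  | 2 => exact measurable_id.prodMk measurable_const
  | u + 3 => exact measurable_id.prodMk measurable_const

def Imp1 : Set (((ℕ → ℕ) × ℕ) × (ℕ → ℕ) × ℕ) :=
  {v | v.1.2 = 2 ∧ v.1.1 0 = 0 ∧ ∃ k, v.2 = (sub v.1.1 k, 1)}

lemma measurableSet_Imp1 : MeasurableSet Imp1 := by
  refine (measurableSet_eq_fun measurable_fst.snd measurable_const).inter
    ((measurableSet_eq_fun ((measurable_pi_apply 0).comp measurable_fst.fst)
      measurable_const).inter ?_)
  have : MeasurableSet {v : ((ℕ → ℕ) × ℕ) × (ℕ → ℕ) × ℕ | ∃ k, v.2 = (sub v.1.1 k, 1)} := by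
    rw [ofPred_exists]
    exact MeasurableSet.iUnion fun k => measurableSet_eq_fun measurable_snd
      ((measurable_sub measurable_fst.fst measurable_const).prodMk measurable_const)
  exact this

def Alive (C : Set ((ℕ → ℕ) × (ℕ → ℕ) × (ℕ → ℕ))) (u a b : ℕ) : Prop :=
  ∃ v ∈ C, ∃ n, seg v.2.2 n = u ∧ seg v.1 u = a ∧ seg v.2.1 u = b

def Dead1 (C : Set ((ℕ → ℕ) × (ℕ → ℕ) × (ℕ → ℕ))) (x : ℕ → ℕ) : Set ((ℕ → ℕ) × ℕ) :=
  {q | (q.2 = 1 ∧ q.1 0 ≠ 0) ∨ ∃ u, q.2 = u + 3 ∧ ¬ Alive C u (seg x u) (seg q.1 u)}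

lemma measurableSet_Dead1 (C : Set ((ℕ → ℕ) × (ℕ → ℕ) × (ℕ → ℕ))) :
    MeasurableSet {p : (ℕ → ℕ) × (ℕ → ℕ) × ℕ | p.2 ∈ Dead1 C p.1} := by
  refine ((measurableSet_eq_fun measurable_snd.snd measurable_const).inter
    (measurableSet_eq_fun ((measurable_pi_apply 0).comp measurable_snd.fst)
      measurable_const).compl).union ?_
  have : MeasurableSet {p : (ℕ → ℕ) × (ℕ → ℕ) × ℕ |
      ∃ u, p.2.2 = u + 3 ∧ ¬ Alive C u (seg p.1 u) (seg p.2.1 u)} := by
    rw [ofPred_exists]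
    refine MeasurableSet.iUnion fun u =>
      (measurableSet_eq_fun measurable_snd.snd measurable_const).inter ?_
    have hm : Measurable fun p : (ℕ → ℕ) × (ℕ → ℕ) × ℕ => (seg p.1 u, seg p.2.1 u) :=
      ((continuous_seg u).measurable.comp measurable_fst).prodMk
        ((continuous_seg u).measurable.comp measurable_snd.fst)
    exact hm (MeasurableSet.of_discrete (s := {w : ℕ × ℕ | ¬ Alive C u w.1 w.2}))
  exact this

lemma mem_of_alive {C : Set ((ℕ → ℕ) × (ℕ → ℕ) × (ℕ → ℕ))} (hC : IsClosed C) {x p r : ℕ → ℕ}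
    (h : ∀ n, Alive C (seg r n) (seg x (seg r n)) (seg p (seg r n))) : (x, p, r) ∈ C := by
  choose v hv m h1 h2 h3 using h
  refine hC.mem_of_tendsto (f := v) (b := atTop) ?_ (Eventually.of_forall hv)
  exact (tendsto_of_agree fun n i hi => (seg_inj (h2 n)).2 i (hi.trans_le (le_seg r n))).prodMk_nhds
    ((tendsto_of_agree fun n i hi => (seg_inj (h3 n)).2 i (hi.trans_le (le_seg r n))).prodMk_nhds
      (tendsto_of_agree fun n => (seg_inj (h1 n)).2))

theorem sigma12Hard_baire (X : Type) [TopologicalSpace X] [PolishSpace X] [Uncountable X]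
    (I : (i : Fin L0.k) → ℕ → Set (Fin (L0.ar i) → X))
    (hB : ∀ i, IsTopologicalBasis (range (I i))) (S : Set (ℕ → ℕ)) (hS : IsSigma12 S) :
    ∃ g : (ℕ → ℕ) → ℕ → ℕ, Continuous g ∧ S = g ⁻¹' CSPB H0 I := by
  obtain ⟨T, hT, hST⟩ := tree_of_sigma12 hS
  let C : Set ((ℕ → ℕ) × (ℕ → ℕ) × (ℕ → ℕ)) := {v | Sim (T v.1 (lft v.2.2)) v.2.1 (rgt v.2.2)}
  have hC : IsClosed C := isClosed_sim.preimage
    (f := fun v : (ℕ → ℕ) × (ℕ → ℕ) × (ℕ → ℕ) => (T v.1 (lft v.2.2), v.2.1, rgt v.2.2))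
    ((hT.comp (continuous_fst.prodMk (continuous_lft.comp continuous_snd.snd))).prodMk
      (continuous_snd.fst.prodMk (continuous_rgt.comp continuous_snd.snd)))
  obtain ⟨g, hg, h⟩ := reduction (Q := (ℕ → ℕ) × ℕ) (Root := fun _ => {q | q.2 = 0})
    (Dead := Dead1 C) (Imp := Imp1) (ch := ch1)
    (measurableSet_eq_fun measurable_snd.snd measurable_const) (measurableSet_Dead1 C)
    measurableSet_Imp1 measurable_ch1 X I hB
  refine ⟨g, hg, ?_⟩
  ext x
  rw [mem_preimage, h, hST]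
  constructor
  · rintro ⟨y, hy⟩
    obtain ⟨E, e, Zt, Zf, hE, he, hZt, hZf, hCS, hsim, htot⟩ := borel_compare hy
    let r : (ℕ → ℕ) → ℕ → ℕ := fun p => join y (e p)
    have hr : Measurable r := (continuous_join continuous_const continuous_id).measurable.comp he
    refine ⟨{q | q.2 = 0} ∪ (({q | q.2 = 1} ∩ {q | q.1 ∈ Zt}) ∪ (({q | q.2 = 2} ∩ {q | q.1 ∈ Zf}) ∪
      ({q | q.1 ∈ E} ∩ ⋃ n, {q | q.2 = seg (r q.1) n + 3}))),
      (measurableSet_eq_fun measurable_snd measurable_const).union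
        (((measurableSet_eq_fun measurable_snd measurable_const).inter (measurable_fst hZt)).union
        (((measurableSet_eq_fun measurable_snd measurable_const).inter (measurable_fst hZf)).union
        ((measurable_fst hE).inter (.iUnion fun n => measurableSet_eq_fun measurable_snd
          (((continuous_seg n).measurable.comp (hr.comp measurable_fst)).add_const 3))))),
      fun q hq => Or.inl hq, ?_, ?_, ?_⟩
    · rintro ⟨p, j⟩ (h1 | ⟨h1, h2⟩ | ⟨h1, h2⟩ | ⟨h1, h2⟩)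
      · obtain rfl : j = 0 := h1
        rintro (⟨h3, -⟩ | ⟨u, h3, -⟩) <;> simp at h3
      · obtain rfl : j = 1 := h1
        rintro (⟨-, h3⟩ | ⟨u, h3, -⟩)
        · exact h3 (hCS.1 p h2).1
        · simp at h3
      · obtain rfl : j = 2 := h1
        rintro (⟨h3, -⟩ | ⟨u, h3, -⟩) <;> simp at h3
      · obtain ⟨n, hn⟩ := mem_iUnion.1 h2
        obtain rfl : j = seg (r p) n + 3 := hn
        rintro (⟨h3, -⟩ | ⟨u, h3, h4⟩)
        · simp at h3
        · obtain rfl : seg (r p) n = u := by simpa using h3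
          refine h4 ⟨(x, p, r p), ?_, n, rfl, rfl, rfl⟩
          show Sim (T x (lft (join y (e p)))) p (rgt (join y (e p)))
          rw [lft_join, rgt_join]
          exact hsim p h1
    · rintro ⟨p, j⟩ (h1 | ⟨h1, h2⟩ | ⟨h1, h2⟩ | ⟨h1, h2⟩)
      · obtain rfl : j = 0 := h1
        by_cases hp : p ∈ E
        · exact ⟨2, Or.inr (Or.inr (Or.inr ⟨hp, mem_iUnion.2 ⟨0, rfl⟩⟩))⟩
        · rcases htot p hp with h3 | h3
          · exact ⟨0, Or.inr (Or.inl ⟨rfl, h3⟩)⟩
          · exact ⟨1, Or.inr (Or.inr (Or.inl ⟨rfl, h3⟩))⟩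
      · obtain rfl : j = 1 := h1
        obtain ⟨-, k, hk⟩ := hCS.1 p h2
        exact ⟨k, Or.inr (Or.inr (Or.inl ⟨rfl, hk⟩))⟩
      · obtain rfl : j = 2 := h1
        exact ⟨0, Or.inr (Or.inr (Or.inl ⟨rfl, h2⟩))⟩
      · obtain ⟨n, hn⟩ := mem_iUnion.1 h2
        obtain rfl : j = seg (r p) n + 3 := hn
        exact ⟨r p n, Or.inr (Or.inr (Or.inr ⟨h1, mem_iUnion.2 ⟨n + 1, rfl⟩⟩))⟩
    · rintro ⟨p, j⟩ q' ⟨h1, h2, k, h3⟩ hq
      obtain rfl : j = 2 := h1
      obtain rfl : q' = (sub p k, 1) := h3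
      rcases hq with h4 | ⟨h4, -⟩ | ⟨-, h4⟩ | ⟨-, h4⟩
      · simp at h4
      · simp at h4
      · exact Or.inr (Or.inl ⟨rfl, hCS.2 p h4 h2 k⟩)
      · obtain ⟨n, hn⟩ := mem_iUnion.1 h4
        simp at hn
  · rintro ⟨Z, hZ, h0, h1, h2, h3⟩
    by_contra hx
    refine not_measurable_claims (Zt := {p | (p, 1) ∈ Z}) (Zf := {p | (p, 2) ∈ Z})
      ⟨fun p hp => ⟨?_, (h2 (p, 1) hp).imp fun k hk => by rw [ch1_one] at hk; exact hk⟩,
        fun p hp hp0 k => h3 (p, 2) (sub p k, 1) ⟨rfl, hp0, k, rfl⟩ hp⟩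
      (fun p hp => ?_) ((measurable_id.prodMk measurable_const) hZ)
    · by_contra hne
      exact h1 _ hp (Or.inl ⟨rfl, hne⟩)
    · obtain ⟨k, hk⟩ := h2 (p, 0) (h0 rfl)
      replace hk : (p, min k 2 + 1) ∈ Z := hk
      have hcases : min k 2 = 0 ∨ min k 2 = 1 ∨ min k 2 = 2 := by omega
      rcases hcases with h4 | h4 | h4 <;> rw [h4] at hk
      · exact Or.inl hk
      · exact Or.inr hk
      · exfalso
        obtain ⟨r, hr⟩ := exists_branch (P := fun u => (p, u + 3) ∈ Z) hk fun u hu => h2 _ hu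
        have h5 : (x, p, r) ∈ C := mem_of_alive hC fun n => by
          by_contra hn
          exact h1 _ (hr n) (Or.inr ⟨_, rfl, hn⟩)
        exact hx ⟨_, wf_of_sim hp h5⟩

lemma exists_injection (Y : Type) [TopologicalSpace Y] [PolishSpace Y]
    (h : IsTopologicalBasis {U : Set Y | IsClopen U}) :
    ∃ ι : Y → ℕ → ℕ, Continuous ι ∧ Function.Injective ι := by
  classical
  obtain ⟨b, hb1, hb2, hb3⟩ := h.exists_countable
  obtain ⟨J, hJ⟩ := (hb2.insert ∅).exists_eq_range (insert_nonempty _ _)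
  have hJc : ∀ n, IsClopen (J n) := fun n => by
    have : J n ∈ insert ∅ b := hJ ▸ mem_range_self n
    rcases this with h1 | h1
    · rw [h1]; exact isClopen_empty
    · exact hb1 h1
  refine ⟨fun y n => cond ((J n).boolIndicator y) 1 0, continuous_pi fun n =>
    (continuous_of_discreteTopology (f := fun c : Bool => cond c 1 0)).comp
      ((continuous_boolIndicator_iff_isClopen _).2 (hJc n)), fun y y' hy => ?_⟩
  refine hb3.eq_iff.2 fun U hU => ?_
  obtain ⟨n, rfl⟩ : U ∈ range J := hJ ▸ mem_insert_of_mem _ hU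
  have h1 := congrFun hy n
  rw [mem_iff_boolIndicator, mem_iff_boolIndicator]
  revert h1
  dsimp only
  cases (J n).boolIndicator y <;> cases (J n).boolIndicator y' <;> simp

theorem sigma12Hard (X : Type) [TopologicalSpace X] [PolishSpace X] [Uncountable X]
    (I : (i : Fin L0.k) → ℕ → Set (Fin (L0.ar i) → X))
    (hB : ∀ i, IsTopologicalBasis (range (I i))) : Sigma12Hard (CSPB H0 I) := by
  rintro Y _ _ hY _ ⟨A, hA, rfl⟩
  obtain ⟨ι, hc, hi⟩ := exists_injection Y hY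
  have hc' : Continuous (Prod.map ι (id : (ℕ → ℕ) → ℕ → ℕ)) := hc.prodMap continuous_id
  have hi' : Function.Injective (Prod.map ι (id : (ℕ → ℕ) → ℕ → ℕ)) :=
    hi.prodMap Function.injective_id
  have hA' : IsPi11 (Prod.map ι id '' A) := by
    have h1 : (Prod.map ι id '' A)ᶜ = ⋃ b : Bool,
        cond b (range (Prod.map ι (id : (ℕ → ℕ) → ℕ → ℕ)))ᶜ (Prod.map ι id '' Aᶜ) := by
      rw [← union_eq_iUnion, compl_eq_univ_sdiff A, image_sdiff hi', image_univ]
      ext z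
      have := image_subset_range (Prod.map ι (id : (ℕ → ℕ) → ℕ → ℕ)) A
      simp only [mem_compl_iff, mem_union, Set.mem_sdiff]
      tauto
    unfold IsPi11
    rw [h1]
    refine AnalyticSet.iUnion fun b => ?_
    cases b
    · exact AnalyticSet.image_of_continuous hA hc'
    · exact (measurableSet_range_of_continuous_injective hc' hi').compl.analyticSet
  obtain ⟨g, hg, h⟩ := sigma12Hard_baire X I hB _ ⟨_, hA', rfl⟩
  refine ⟨g ∘ ι, hg.comp hc, ?_⟩
  rw [preimage_comp, ← h]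
  ext y
  constructor
  · rintro ⟨z, hz, rfl⟩
    exact ⟨_, ⟨z, hz, rfl⟩, rfl⟩
  · rintro ⟨_, ⟨z, hz, rfl⟩, h1⟩
    exact ⟨z, hz, hi h1⟩

end Pool.Agent.P.MP_501d1b_lc
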