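import Pool.Agent.P.MP_501d1b_lc.Trees
import Pool.Agent.P.MP_501d1b_lc.Gadget

/-! Simulation of one tree in another, claims about winners of well-founded game trees, and the
Borel inseparability of the two kinds of winners. -/

namespace Pool.Agent.P.MP_501d1b_lc

open Set Filter Topology MeasureTheory

def SimN : ℕ → (ℕ → ℕ) → (ℕ → ℕ) → (ℕ → ℕ) → Prop
  | 0, _, _, _ => True
  | n + 1, τ, p, e => τ 0 = 0 → p 0 = 0 ∧ ∀ k, SimN n (sub τ k) (sub p (sub e k 0)) (sub e k)

/-- `e` describes an embedding of the tree `τ` in the tree `p`. -/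
def Sim (τ p e : ℕ → ℕ) : Prop := ∀ n, SimN n τ p e

lemma sim_iff (τ p e : ℕ → ℕ) : Sim τ p e ↔
    (τ 0 = 0 → p 0 = 0 ∧ ∀ k, Sim (sub τ k) (sub p (sub e k 0)) (sub e k)) := by
  constructor
  · intro h h0
    exact ⟨(h 1 h0).1, fun k n => (h (n + 1) h0).2 k⟩
  · intro h n
    cases n with
    | zero => trivial
    | succ n => exact fun h0 => ⟨(h h0).1, fun k => (h h0).2 k n⟩

lemma isClosed_simN (n : ℕ) :
    IsClosed {v : (ℕ → ℕ) × (ℕ → ℕ) × (ℕ → ℕ) | SimN n v.1 v.2.1 v.2.2} := by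
  induction n with
  | zero => exact isClosed_univ
  | succ n ih =>
    have h1 : IsOpen {v : (ℕ → ℕ) × (ℕ → ℕ) × (ℕ → ℕ) | v.1 0 = 0} :=
      (isOpen_discrete ({0} : Set ℕ)).preimage
        (f := fun v : (ℕ → ℕ) × (ℕ → ℕ) × (ℕ → ℕ) => v.1 0) (by fun_prop)
    have h2 : IsClosed {v : (ℕ → ℕ) × (ℕ → ℕ) × (ℕ → ℕ) | v.2.1 0 = 0} :=
      isClosed_eq ((continuous_apply 0).comp continuous_snd.fst) continuous_const
    have h3 : ∀ k, IsClosed {v : (ℕ → ℕ) × (ℕ → ℕ) × (ℕ → ℕ) |
        SimN n (sub v.1 k) (sub v.2.1 (sub v.2.2 k 0)) (sub v.2.2 k)} := fun k =>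
      ih.preimage (f := fun v : (ℕ → ℕ) × (ℕ → ℕ) × (ℕ → ℕ) =>
        (sub v.1 k, sub v.2.1 (sub v.2.2 k 0), sub v.2.2 k))
        ((continuous_sub continuous_fst continuous_const).prodMk
          ((continuous_sub continuous_snd.fst ((continuous_apply 0).comp
            (continuous_sub continuous_snd.snd continuous_const))).prodMk
            (continuous_sub continuous_snd.snd continuous_const)))
    refine isClosed_imp h1 (h2.and ?_)
    rw [ofPred_forall]
    exact isClosed_iInter h3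

lemma isClosed_sim : IsClosed {v : (ℕ → ℕ) × (ℕ → ℕ) × (ℕ → ℕ) | Sim v.1 v.2.1 v.2.2} := by
  simp only [Sim]
  rw [ofPred_forall]
  exact isClosed_iInter isClosed_simN

lemma wf_of_sim {p : ℕ → ℕ} (hp : WF p) : ∀ {τ e : ℕ → ℕ}, Sim τ p e → WF τ := by
  induction hp with
  | mk p _ ih =>
    intro τ e h
    refine WF.mk _ fun k h0 => ?_
    obtain ⟨h1, h2⟩ := (sim_iff _ _ _).1 h h0
    exact ih _ h1 (h2 k)

/-- A pair of sets of claims (the player to move wins, or loses) that supports itself. -/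
def CS (Zt Zf : Set (ℕ → ℕ)) : Prop :=
  (∀ p ∈ Zt, p 0 = 0 ∧ ∃ k, sub p k ∈ Zf) ∧ ∀ p ∈ Zf, p 0 = 0 → ∀ k, sub p k ∈ Zt

def graft (a : ℕ) (g : ℕ → ℕ → ℕ) : ℕ → ℕ :=
  fun n => Nat.casesOn n a fun m => g m.unpair.1 m.unpair.2

lemma sub_graft (a : ℕ) (g : ℕ → ℕ → ℕ) (k : ℕ) : sub (graft a g) k = g k := by
  funext n
  simp only [sub, graft, Nat.unpair_pair]

lemma graft_zero (a : ℕ) (g : ℕ → ℕ → ℕ) : graft a g 0 = a := rfl

lemma measurable_sub {T : Type} [MeasurableSpace T] {q : T → ℕ → ℕ} {k : T → ℕ}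
    (hq : Measurable q) (hk : Measurable k) : Measurable fun t => sub (q t) (k t) :=
  (continuous_sub continuous_fst continuous_snd).measurable.comp (hq.prodMk hk)

lemma measurable_graft {T : Type} [MeasurableSpace T] {a : T → ℕ} {g : ℕ → T → ℕ → ℕ}
    (ha : Measurable a) (hg : ∀ k, Measurable (g k)) :
    Measurable fun t => graft (a t) fun k => g k t := by
  refine measurable_pi_lambda _ fun n => ?_
  cases n with
  | zero => exact ha
  | succ m => exact (measurable_pi_apply _).comp (hg _)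

lemma sim_congr {τ p e e' : ℕ → ℕ} (h : ∀ k, sub e k = sub e' k) (hs : Sim τ p e) :
    Sim τ p e' := by
  rw [sim_iff] at hs ⊢
  simpa only [← h] using hs

/-- Comparison with a fixed well-founded tree can be done in a Borel way. -/
theorem borel_compare {τ : ℕ → ℕ} (hτ : WF τ) :
    ∃ (E : Set (ℕ → ℕ)) (e : (ℕ → ℕ) → ℕ → ℕ) (Zt Zf : Set (ℕ → ℕ)), MeasurableSet E ∧
      Measurable e ∧ MeasurableSet Zt ∧ MeasurableSet Zf ∧ CS Zt Zf ∧
      (∀ p ∈ E, Sim τ p (e p)) ∧ ∀ p ∉ E, p ∈ Zt ∨ p ∈ Zf := by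
  induction hτ with
  | mk τ _ ih =>
    by_cases h0 : τ 0 = 0
    swap
    · exact ⟨univ, id, ∅, ∅, .univ, measurable_id, .empty, .empty,
        ⟨fun _ h => h.elim, fun _ h => h.elim⟩,
        fun p _ => (sim_iff _ _ _).2 fun h => absurd h h0, fun p hp => absurd trivial hp⟩
    choose E e Zt Zf hE he hZt hZf hCS hsim htot using fun k => ih k h0
    have hs : ∀ j, Measurable fun p : ℕ → ℕ => sub p j := fun j =>
      measurable_sub measurable_id measurable_const
    have hz : MeasurableSet {p : ℕ → ℕ | p 0 = 0} :=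
      measurableSet_eq_fun (measurable_pi_apply 0) measurable_const
    let j : ℕ → (ℕ → ℕ) → ℕ := fun k p => sInf {j | sub p j ∈ E k}
    have hj : ∀ k, Measurable (j k) := fun k => measurable_sInf fun i => hs i (hE k)
    let T := ⋃ k, Zt k
    let F := ⋃ k, Zf k
    have hT : MeasurableSet T := MeasurableSet.iUnion hZt
    have hF : MeasurableSet F := MeasurableSet.iUnion hZf
    refine ⟨{p | p 0 = 0} ∩ ⋂ k, ⋃ i, {p | sub p i ∈ E k},
      fun p => graft 0 fun k => graft (j k p) fun l => sub (e k (sub p (j k p))) l,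
      T ∪ ({p | p 0 = 0} ∩ ⋃ i, {p | sub p i ∈ F}),
      F ∪ ({p | p 0 = 0}ᶜ ∪ ⋂ i, {p | sub p i ∈ T}),
      hz.inter (.iInter fun k => .iUnion fun i => hs i (hE k)),
      measurable_graft measurable_const fun k => measurable_graft (hj k) fun l =>
        measurable_sub ((he k).comp (measurable_sub measurable_id (hj k))) measurable_const,
      hT.union (hz.inter (.iUnion fun i => hs i hF)),
      hF.union (hz.compl.union (.iInter fun i => hs i hT)), ⟨?_, ?_⟩, ?_, ?_⟩
    · rintro p (hp | ⟨h1, h2⟩)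
      · obtain ⟨k, hk⟩ := mem_iUnion.1 hp
        obtain ⟨h1, i, hi⟩ := (hCS k).1 p hk
        exact ⟨h1, i, Or.inl (mem_iUnion.2 ⟨k, hi⟩)⟩
      · obtain ⟨i, hi⟩ := mem_iUnion.1 h2
        exact ⟨h1, i, Or.inl hi⟩
    · rintro p (hp | hp | hp) h1 i
      · obtain ⟨k, hk⟩ := mem_iUnion.1 hp
        exact Or.inl (mem_iUnion.2 ⟨k, (hCS k).2 p hk h1 i⟩)
      · exact absurd h1 hp
      · exact Or.inl (mem_iInter.1 hp i)
    · rintro p ⟨h1, h2⟩
      refine (sim_iff _ _ _).2 fun _ => ⟨h1, fun k => ?_⟩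
      have h3 : sub p (j k p) ∈ E k := Nat.sInf_mem (s := {j | sub p j ∈ E k})
        (mem_iUnion.1 (mem_iInter.1 h2 k))
      simp only [sub_graft, graft_zero]
      exact sim_congr (fun l => (sub_graft _ _ l).symm) (hsim k _ h3)
    · intro p hp
      by_cases h1 : p 0 = 0
      swap
      · exact Or.inr (Or.inr (Or.inl h1))
      have h2 : ∃ k, ∀ i, sub p i ∉ E k := by
        by_contra hc
        refine hp ⟨h1, mem_iInter.2 fun k => ?_⟩
        by_contra hk
        exact hc ⟨k, fun i hi => hk (mem_iUnion.2 ⟨i, hi⟩)⟩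
      obtain ⟨k, hk⟩ := h2
      by_cases h3 : ∃ i, sub p i ∈ F
      · exact Or.inl (Or.inr ⟨h1, mem_iUnion.2 h3⟩)
      · refine Or.inr (Or.inr (Or.inr (mem_iInter.2 fun i => ?_)))
        rcases htot k _ (hk i) with h4 | h4
        · exact mem_iUnion.2 ⟨k, h4⟩
        · exact absurd ⟨i, mem_iUnion.2 ⟨k, h4⟩⟩ h3

lemma CS.disj {Zt Zf : Set (ℕ → ℕ)} (h : CS Zt Zf) {p : ℕ → ℕ} (hp : WF p) :
    p ∈ Zt → p ∉ Zf := by
  induction hp with
  | mk p _ ih =>
    intro h1 h2
    obtain ⟨h0, k, hk⟩ := h.1 p h1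
    exact ih k h0 (h.2 p h2 h0 k) hk

def Lip (g : (ℕ → ℕ) → ℕ → ℕ) : Prop :=
  ∀ x x' m, (∀ i < m, x i = x' i) → g x m = g x' m

lemma Lip.graft {g : ℕ → (ℕ → ℕ) → ℕ → ℕ} (h : ∀ k, Lip (g k)) :
    Lip fun x => graft 0 fun k => g k x := by
  intro x x' m hm
  cases m with
  | zero => rfl
  | succ m =>
    exact h _ x x' _ fun i hi => hm i (hi.trans (Nat.lt_succ_of_le (Nat.unpair_right_le _)))

lemma Lip.exists_phi {g : (ℕ → ℕ) → ℕ → ℕ} (h : Lip g) : ∃ e, ∀ x, phi e x = g x := by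
  classical
  refine ⟨fun m => if hx : ∃ x, seg x m.unpair.1 = m.unpair.2 then g hx.choose m.unpair.1 else 0,
    fun x => funext fun m => ?_⟩
  have hx : ∃ x', seg x' (Nat.pair m (seg x m)).unpair.1 = (Nat.pair m (seg x m)).unpair.2 :=
    ⟨x, by simp only [Nat.unpair_pair]⟩
  simp only [phi]
  rw [dif_pos hx]
  have h2 := hx.choose_spec
  generalize hx.choose = x' at h2 ⊢
  simp only [Nat.unpair_pair] at h2 ⊢
  exact h _ _ _ (seg_inj h2).2

section
variable {Zt Zf : Set (ℕ → ℕ)} (hCS : CS Zt Zf) (htot : ∀ p, WF p → p ∈ Zt ∨ p ∈ Zf)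
include hCS htot

lemma graft_mem {g : ℕ → ℕ → ℕ} (hg : ∀ k, WF (g k)) :
    WF (graft 0 g) ∧ (graft 0 g ∈ Zt ↔ ∃ k, g k ∉ Zt) := by
  have hw : WF (graft 0 g) := WF.mk _ fun k _ => by rw [sub_graft]; exact hg k
  refine ⟨hw, fun h => ?_, fun ⟨k, hk⟩ => ?_⟩
  · obtain ⟨-, k, hk⟩ := hCS.1 _ h
    rw [sub_graft] at hk
    exact ⟨k, fun h' => hCS.disj (hg k) h' hk⟩
  · refine (htot _ hw).resolve_right fun h => hk ?_
    have := hCS.2 _ h rfl k
    rwa [sub_graft] at this

/-- Sets that reduce to the claims by a Lipschitz map into well-founded trees. -/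
@[instance_reducible] def repSets : MeasurableSpace (ℕ → ℕ) where
  MeasurableSet' B := ∃ g, Lip g ∧ ∀ x, WF (g x) ∧ (x ∈ B ↔ g x ∈ Zt)
  measurableSet_empty := ⟨fun _ _ => 1, fun _ _ _ _ => rfl, fun _ =>
    ⟨WF.mk _ fun _ h => absurd h one_ne_zero,
      fun h => h.elim, fun h => absurd (hCS.1 _ h).1 one_ne_zero⟩⟩
  measurableSet_compl := by
    rintro B ⟨g, hg, h⟩
    refine ⟨fun x => graft 0 fun _ => g x, Lip.graft fun _ => hg, fun x => ?_⟩
    obtain ⟨h1, h2⟩ := graft_mem hCS htot (g := fun _ => g x) fun _ => (h x).1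
    refine ⟨h1, ?_⟩
    rw [h2, mem_compl_iff, (h x).2, exists_const]
  measurableSet_iUnion := by
    intro B hB
    choose g hg h using hB
    refine ⟨fun x => graft 0 fun k => graft 0 fun _ => g k x,
      Lip.graft fun k => Lip.graft fun _ => hg k, fun x => ?_⟩
    have h0 := fun k => graft_mem hCS htot (g := fun _ => g k x) fun _ => (h k x).1
    obtain ⟨h1, h2⟩ := graft_mem hCS htot (g := fun k => graft 0 fun _ => g k x)
      fun k => (h0 k).1
    refine ⟨h1, ?_⟩
    rw [h2, mem_iUnion]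
    refine exists_congr fun k => ?_
    rw [(h0 k).2, exists_const, not_not, (h k x).2]

theorem not_measurable_claims : ¬ MeasurableSet Zt := by
  classical
  intro hZ
  have hid : @Measurable _ _ (repSets hCS htot) _ (fun x : ℕ → ℕ => x) := by
    refine @measurable_pi_lambda _ _ _ (repSets hCS htot) _ _ fun i => ?_
    refine @measurable_to_countable' _ _ _ _ (repSets hCS htot) _ fun a => ?_
    have hF : WF (fun _ => 1) := WF.mk _ fun _ h => absurd h one_ne_zero
    have hF' : (fun _ => 1) ∉ Zt := fun h => absurd (hCS.1 _ h).1 one_ne_zero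
    obtain ⟨hT, hT'⟩ := graft_mem hCS htot (g := fun _ _ => 1) fun _ => hF
    replace hT' := hT'.2 ⟨0, hF'⟩
    generalize (graft 0 fun _ _ => 1) = t at hT hT'
    refine ⟨fun x => graft 0 fun k => if x i = a ∧ k = i then fun _ => 1 else t, ?_, fun x => ?_⟩
    · intro x x' m hm
      cases m with
      | zero => rfl
      | succ m =>
        simp only [graft]
        by_cases hk : m.unpair.1 = i
        · rw [hm i (hk ▸ Nat.lt_succ_of_le (Nat.unpair_left_le _))]
        · simp only [hk, and_false, if_false]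
    · obtain ⟨h1, h2⟩ := graft_mem hCS htot
        (g := fun k => if x i = a ∧ k = i then fun _ => 1 else t)
        fun k => by split_ifs; exacts [hF, hT]
      refine ⟨h1, ?_⟩
      rw [h2]
      constructor
      · intro hx
        exact ⟨i, by rw [if_pos ⟨hx, rfl⟩]; exact hF'⟩
      · rintro ⟨k, hk⟩
        by_contra hx
        rw [if_neg fun h => hx h.1] at hk
        exact hk hT'
  have hB : MeasurableSet {x | phi x x ∉ Zt} :=
    ((continuous_phi continuous_id continuous_id).measurable hZ).compl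
  obtain ⟨g, hg, h⟩ := hid hB
  obtain ⟨e, he⟩ := hg.exists_phi
  have := (h e).2
  rw [← he] at this
  exact iff_not_self this.symm

end

end Pool.Agent.P.MP_501d1b_lc
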