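import Pool.Agent.P.MP_501d1b_lc.Insep
import Pool.Agent.P.MP_501d1b_lc.Coding

/-! The coded problem is always `Σ¹₂`. -/

namespace Pool.Agent.P.MP_501d1b_lc

open Set Filter Topology TopologicalSpace MeasureTheory

def tl (c : ℕ → ℕ) : ℕ → ℕ := fun n => c (n + 1)

lemma measurable_tl {T : Type} [MeasurableSpace T] {c : T → ℕ → ℕ} (hc : Measurable c) :
    Measurable fun t => tl (c t) :=
  measurable_pi_lambda _ fun n => (measurable_pi_apply (n + 1)).comp hc

section
variable {Y : Type} (I : ℕ → Set Y)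

def EvN : ℕ → (ℕ → ℕ) → Y → (ℕ → ℕ) → Prop
  | 0, _, _, _ => True
  | n + 1, c, y, w => (1 < c 0 → (w 0 = 1 ↔ ∃ k, c (k + 1) = 1 ∧ y ∈ I k)) ∧
      (c 0 = 0 → (w 0 = 1 ↔ ¬ w 1 = 1) ∧ EvN n (tl c) y (tl w)) ∧
      (c 0 = 1 → (w 0 = 1 ↔ ∃ i, sub w i 0 = 1) ∧ ∀ i, EvN n (sub c i) y (sub w i))

/-- `w` evaluates the code `c` at the point `y`. -/
def Ev (c : ℕ → ℕ) (y : Y) (w : ℕ → ℕ) : Prop := ∀ n, EvN I n c y w

lemma ev_iff (c : ℕ → ℕ) (y : Y) (w : ℕ → ℕ) : Ev I c y w ↔
    (1 < c 0 → (w 0 = 1 ↔ ∃ k, c (k + 1) = 1 ∧ y ∈ I k)) ∧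
      (c 0 = 0 → (w 0 = 1 ↔ ¬ w 1 = 1) ∧ Ev I (tl c) y (tl w)) ∧
      (c 0 = 1 → (w 0 = 1 ↔ ∃ i, sub w i 0 = 1) ∧ ∀ i, Ev I (sub c i) y (sub w i)) := by
  constructor
  · intro h
    exact ⟨(h 1).1, fun h0 => ⟨((h 1).2.1 h0).1, fun n => ((h (n + 1)).2.1 h0).2⟩,
      fun h0 => ⟨((h 1).2.2 h0).1, fun i n => ((h (n + 1)).2.2 h0).2 i⟩⟩
  · intro h n
    cases n with
    | zero => trivial
    | succ n => exact ⟨h.1, fun h0 => ⟨(h.2.1 h0).1, (h.2.1 h0).2 n⟩,
        fun h0 => ⟨(h.2.2 h0).1, fun i => (h.2.2 h0).2 i n⟩⟩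

variable {I}

lemma ev_sound {c : ℕ → ℕ} {A : Set Y} (h : Codes I c A) (y : Y) :
    ∀ {w : ℕ → ℕ}, Ev I c y w → (w 0 = 1 ↔ y ∈ A) := by
  induction h with
  | opn c h =>
    intro w hw
    rw [((ev_iff I _ _ _).1 hw).1 h]
    simp only [mem_iUnion, exists_prop]
  | compl c A h hA ih =>
    intro w hw
    obtain ⟨h1, h2⟩ := ((ev_iff I _ _ _).1 hw).2.1 h
    rw [h1, mem_compl_iff, ← ih h2]
    rfl
  | union c A h hA ih =>
    intro w hw
    obtain ⟨h1, h2⟩ := ((ev_iff I _ _ _).1 hw).2.2 h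
    rw [h1, mem_iUnion]
    exact exists_congr fun i => ih i (h2 i)

lemma ev_exists {c : ℕ → ℕ} {A : Set Y} (h : Codes I c A) (y : Y) : ∃ w, Ev I c y w := by
  classical
  induction h with
  | opn c h =>
    refine ⟨fun _ => if ∃ k, c (k + 1) = 1 ∧ y ∈ I k then 1 else 0,
      (ev_iff I _ _ _).2 ⟨fun _ => ?_, fun h0 => by omega, fun h0 => by omega⟩⟩
    split_ifs with h1
    · exact ⟨fun _ => h1, fun _ => rfl⟩
    · exact ⟨fun h2 => h2.elim, fun h2 => absurd h2 h1⟩
  | compl c A h hA ih =>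
    obtain ⟨w, hw⟩ := ih
    let w' : ℕ → ℕ := fun n => Nat.casesOn n (if w 0 = 1 then 0 else 1) w
    refine ⟨w', (ev_iff I _ _ _).2 ⟨fun h0 => by omega, fun _ => ⟨?_, hw⟩, fun h0 => by omega⟩⟩
    show (if w 0 = 1 then 0 else 1) = 1 ↔ ¬ w 0 = 1
    split_ifs with h1 <;> simp [h1]
  | union c A h hA ih =>
    choose w hw using ih
    refine ⟨graft (if ∃ i, w i 0 = 1 then 1 else 0) w,
      (ev_iff I _ _ _).2 ⟨fun h0 => by omega, fun h0 => by omega, fun _ => ⟨?_, fun i => ?_⟩⟩⟩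
    · simp only [sub_graft, graft_zero]
      split_ifs with h1
      · exact ⟨fun _ => h1, fun _ => rfl⟩
      · exact ⟨fun h2 => h2.elim, fun h2 => absurd h2 h1⟩
    · rw [sub_graft]; exact hw i

lemma measurable_evN [MeasurableSpace Y] (hI : ∀ k, MeasurableSet (I k)) (n : ℕ) :
    Measurable fun v : (ℕ → ℕ) × Y × (ℕ → ℕ) => EvN I n v.1 v.2.1 v.2.2 := by
  induction n with
  | zero => exact measurable_const
  | succ n ih =>
    have hc : ∀ k, Measurable fun v : (ℕ → ℕ) × Y × (ℕ → ℕ) => v.1 k := fun k =>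
      (measurable_pi_apply k).comp measurable_fst
    have hw : ∀ k, Measurable fun v : (ℕ → ℕ) × Y × (ℕ → ℕ) => v.2.2 k := fun k =>
      (measurable_pi_apply k).comp measurable_snd.snd
    have h1 : Measurable fun v : (ℕ → ℕ) × Y × (ℕ → ℕ) => 1 < v.1 0 :=
      (measurable_of_countable fun a : ℕ => 1 < a).comp (hc 0)
    have hy : ∀ k, Measurable fun v : (ℕ → ℕ) × Y × (ℕ → ℕ) => v.2.1 ∈ I k := fun k =>
      (hI k).mem.comp measurable_snd.fst
    have h2 : Measurable fun v : (ℕ → ℕ) × Y × (ℕ → ℕ) => EvN I n (tl v.1) v.2.1 (tl v.2.2) :=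
      ih.comp ((measurable_tl measurable_fst).prodMk
        (measurable_snd.fst.prodMk (measurable_tl measurable_snd.snd)))
    have h3 : ∀ i, Measurable fun v : (ℕ → ℕ) × Y × (ℕ → ℕ) =>
        EvN I n (sub v.1 i) v.2.1 (sub v.2.2 i) := fun i =>
      ih.comp ((measurable_sub measurable_fst measurable_const).prodMk
        (measurable_snd.fst.prodMk (measurable_sub measurable_snd.snd measurable_const)))
    exact (h1.imp (((hw 0).eq measurable_const).iff
      (Measurable.exists fun k => ((hc (k + 1)).eq measurable_const).and (hy k)))).and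
      ((((hc 0).eq measurable_const).imp ((((hw 0).eq measurable_const).iff
        ((hw 1).eq measurable_const).not).and h2)).and
      (((hc 0).eq measurable_const).imp ((((hw 0).eq measurable_const).iff
        (Measurable.exists fun i => (hw _).eq measurable_const)).and (Measurable.forall h3))))

lemma measurable_ev [MeasurableSpace Y] (hI : ∀ k, MeasurableSet (I k)) {T : Type}
    [MeasurableSpace T] {c w : T → ℕ → ℕ} {y : T → Y} (hc : Measurable c) (hy : Measurable y)
    (hw : Measurable w) : Measurable fun t => Ev I (c t) (y t) (w t) :=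
  Measurable.forall fun n => (measurable_evN hI n).comp (hc.prodMk (hy.prodMk hw))

def stp (c : ℕ → ℕ) (k : ℕ) : ℕ → ℕ := if c 0 = 0 then tl c else sub c k

def pth (c b : ℕ → ℕ) : ℕ → ℕ → ℕ
  | 0 => c
  | n + 1 => stp (pth c b n) (b n)

lemma measurable_pth {T : Type} [MeasurableSpace T] {c b : T → ℕ → ℕ} (hc : Measurable c)
    (hb : Measurable b) (n : ℕ) : Measurable fun t => pth (c t) (b t) n := by
  induction n with
  | zero => exact hc
  | succ n ih =>
    exact Measurable.ite (measurableSet_eq_fun ((measurable_pi_apply 0).comp ih) measurable_const)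
      (measurable_tl ih) (measurable_sub ih ((measurable_pi_apply n).comp hb))

lemma not_code_iff (c : ℕ → ℕ) : (¬ ∃ A, Codes I c A) ↔ ∃ b, ∀ n, pth c b n 0 ≤ 1 := by
  constructor
  · intro h
    have key : ∀ p : {p // ¬ ∃ A, Codes I p A},
        ∃ k, p.1 0 ≤ 1 ∧ ¬ ∃ A, Codes I (stp p.1 k) A := fun p => by
      by_contra hc
      refine p.2 ?_
      rcases Nat.lt_or_ge 1 (p.1 0) with h1 | h1
      · exact ⟨_, Codes.opn _ h1⟩
      have h2 : ∀ k, ∃ A, Codes I (stp p.1 k) A := fun k => by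
        by_contra hk
        exact hc ⟨k, h1, hk⟩
      choose A hA using h2
      by_cases h0 : p.1 0 = 0
      · simp only [stp, if_pos h0] at hA
        exact ⟨_, Codes.compl _ _ h0 (hA 0)⟩
      · simp only [stp, if_neg h0] at hA
        exact ⟨_, Codes.union _ _ (by omega) hA⟩
    choose κ hκ using key
    let s : ℕ → {p // ¬ ∃ A, Codes I p A} := fun n =>
      Nat.rec ⟨c, h⟩ (fun _ p => ⟨stp p.1 (κ p), (hκ p).2⟩) n
    refine ⟨fun n => κ (s n), fun n => ?_⟩
    have : ∀ n, pth c (fun n => κ (s n)) n = (s n).1 := fun n => by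
      induction n with
      | zero => rfl
      | succ n ih => simp only [pth, ih]; rfl
    rw [this]; exact (hκ _).1
  · rintro ⟨b, hb⟩ ⟨A, hA⟩
    have key : ∀ {d : ℕ → ℕ} {B : Set Y}, Codes I d B → ∀ n, pth c b n ≠ d := by
      intro d B h
      induction h with
      | opn d h => intro n hn; have := hb n; rw [hn] at this; omega
      | compl d A h _ ih =>
        intro n hn
        refine ih (n + 1) ?_
        simp only [pth, hn, stp, if_pos h]; rfl
      | union d A h _ ih =>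
        intro n hn
        refine ih (b n) (n + 1) ?_
        simp only [pth, hn, stp, if_neg (show ¬ d 0 = 0 by omega)]; rfl
    exact key hA 0 rfl

end

lemma analytic_proj {T : Type} [MeasurableSpace T] [StandardBorelSpace T]
    {φ : (ℕ → ℕ) × (ℕ → ℕ) → T → Prop}
    (h : Measurable fun p : ((ℕ → ℕ) × (ℕ → ℕ)) × T => φ p.1 p.2) :
    AnalyticSet {z | ∃ t, φ z t} := by
  have := (measurableSet_setOfPred.2 h).analyticSet_image measurable_fst
  convert this
  ext z
  simp

def col (c : ℕ → ℕ) (i : ℕ) : ℕ → ℕ := fun n => c (Nat.pair i n)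

lemma measurable_col {T : Type} [MeasurableSpace T] {c : T → ℕ → ℕ} (hc : Measurable c) (i : ℕ) :
    Measurable fun t => col (c t) i :=
  measurable_pi_lambda _ fun _ => (measurable_pi_apply _).comp hc

lemma analytic_union {Y : Type} [TopologicalSpace Y] {A B : Set Y} (hA : AnalyticSet A)
    (hB : AnalyticSet B) : AnalyticSet (A ∪ B) := by
  rw [union_eq_iUnion]
  exact AnalyticSet.iUnion fun b => by cases b; exacts [hB, hA]

theorem isSigma12_CSPB {L : Sig} {m : ℕ} (H : Str L (Fin m)) (X : Type) [TopologicalSpace X]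
    [PolishSpace X] (I : (i : Fin L.k) → ℕ → Set (Fin (L.ar i) → X))
    (hB : ∀ i, IsTopologicalBasis (range (I i))) : IsSigma12 (CSPB H I) := by
  classical
  borelize X
  obtain ⟨b, hbc, -, hb⟩ := exists_countable_basis X
  obtain ⟨J, hJ⟩ := (hbc.insert ∅).exists_eq_range (insert_nonempty _ _)
  have hJb : IsTopologicalBasis (range J) := hJ ▸ hb.insert_empty
  have hJm : ∀ k, MeasurableSet (J k) := fun k => (hJb.isOpen ⟨k, rfl⟩).measurableSet
  have hIm : ∀ i k, MeasurableSet (I i k) := fun i k => ((hB i).isOpen ⟨k, rfl⟩).measurableSet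
  let B1 : Set ((ℕ → ℕ) × (ℕ → ℕ)) := ⋃ i : Fin L.k, {z | ∃ b, ∀ n, pth (col z.1 i) b n 0 ≤ 1}
  let B2 : Set ((ℕ → ℕ) × (ℕ → ℕ)) := ⋃ a : Fin m, {z | ∃ b, ∀ n, pth (col z.2 a) b n 0 ≤ 1}
  let B3 : Set ((ℕ → ℕ) × (ℕ → ℕ)) := {z | ∃ t : X × (Fin m → ℕ → ℕ),
    ∀ a : Fin m, Ev J (col z.2 a) t.1 (t.2 a) ∧ ¬ t.2 a 0 = 1}
  let B4 : Set ((ℕ → ℕ) × (ℕ → ℕ)) := ⋃ i : Fin L.k, ⋃ s : Fin (L.ar i) → Fin m,
    {z | ∃ t : (Fin (L.ar i) → X) × (ℕ → ℕ) × (Fin (L.ar i) → ℕ → ℕ),
      s ∉ H i ∧ (Ev (I i) (col z.1 i) t.1 t.2.1 ∧ t.2.1 0 = 1) ∧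
        ∀ j, Ev J (col z.2 (s j)) (t.1 j) (t.2.2 j) ∧ t.2.2 j 0 = 1}
  have hle : Measurable fun a : ℕ => a ≤ 1 := measurable_of_countable _
  have a1 : AnalyticSet B1 := AnalyticSet.iUnion fun i => analytic_proj (Measurable.forall fun n =>
    hle.comp ((measurable_pi_apply 0).comp
      (measurable_pth (measurable_col measurable_fst.fst i) measurable_snd n)))
  have a2 : AnalyticSet B2 := AnalyticSet.iUnion fun a => analytic_proj (Measurable.forall fun n =>
    hle.comp ((measurable_pi_apply 0).comp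
      (measurable_pth (measurable_col measurable_fst.snd a) measurable_snd n)))
  have a3 : AnalyticSet B3 := analytic_proj (Measurable.forall fun a =>
    (measurable_ev hJm (measurable_col measurable_fst.snd a) measurable_snd.fst
      ((measurable_pi_apply a).comp measurable_snd.snd)).and
      (((measurable_pi_apply 0).comp ((measurable_pi_apply a).comp measurable_snd.snd)).eq
        measurable_const).not)
  have a4 : AnalyticSet B4 := AnalyticSet.iUnion fun i => AnalyticSet.iUnion fun s =>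
    analytic_proj (measurable_const.and
      (((measurable_ev (hIm i) (measurable_col measurable_fst.fst i) measurable_snd.fst
        measurable_snd.snd.fst).and
        (((measurable_pi_apply 0).comp measurable_snd.snd.fst).eq measurable_const)).and
      (Measurable.forall fun j =>
        (measurable_ev hJm (measurable_col measurable_fst.snd (s j))
          ((measurable_pi_apply j).comp measurable_snd.fst)
          ((measurable_pi_apply j).comp measurable_snd.snd.snd)).and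
        (((measurable_pi_apply 0).comp ((measurable_pi_apply j).comp measurable_snd.snd.snd)).eq
          measurable_const))))
  refine ⟨(B1 ∪ (B2 ∪ (B3 ∪ B4)))ᶜ, ?_, ?_⟩
  · unfold IsPi11
    rw [compl_compl]
    exact analytic_union a1 (analytic_union a2 (analytic_union a3 a4))
  ext c
  constructor
  · rintro ⟨G, hG, f, hf, hhom⟩
    have hcode : ∀ a : Fin m, ∃ d, Codes J d (f ⁻¹' {a}) := fun a => by
      obtain ⟨g, -, hg⟩ := exists_continuous_code hJb (S := Prod.snd ⁻¹' (f ⁻¹' {a}))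
        (measurable_snd (hf a))
      exact ⟨g fun _ => 0, hg _⟩
    choose d hd using hcode
    let D : ℕ → ℕ := fun n => if h : n.unpair.1 < m then d ⟨n.unpair.1, h⟩ n.unpair.2 else 0
    have hD : ∀ a : Fin m, col D a = d a := fun a => by
      funext n
      simp only [D, col, Nat.unpair_pair]
      exact dif_pos a.2
    refine ⟨(c, D), ?_, rfl⟩
    rintro (h | h | h | h)
    · obtain ⟨i, hi⟩ := mem_iUnion.1 h
      exact (not_code_iff (I := I i) _).2 hi ⟨_, hG i⟩
    · obtain ⟨a, ha⟩ := mem_iUnion.1 h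
      refine (not_code_iff (I := J) _).2 ha ⟨f ⁻¹' {a}, ?_⟩
      show Codes J (col D a) _
      rw [hD]; exact hd a
    · obtain ⟨⟨x, W⟩, h⟩ := h
      obtain ⟨h1, h2⟩ := h (f x)
      simp only [hD] at h1
      exact h2 ((ev_sound (hd _) x h1).2 rfl)
    · obtain ⟨i, hi⟩ := mem_iUnion.1 h
      obtain ⟨s, ⟨t, w, W⟩, h1, ⟨h2, h3⟩, h4⟩ := mem_iUnion.1 hi
      have h5 : t ∈ G i := (ev_sound (hG i) t h2).1 h3
      have h6 : f ∘ t = s := funext fun j => by
        have h7 := (h4 j).1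
        simp only [hD] at h7
        exact (ev_sound (hd _) _ h7).1 (h4 j).2
      exact h1 (h6 ▸ hhom i t h5)
  · rintro ⟨⟨c, D⟩, h, rfl⟩
    have h1 : ∀ i : Fin L.k, ∃ A, Codes (I i) (col c i) A := fun i => by
      by_contra hc
      exact h (Or.inl (mem_iUnion.2 ⟨i, (not_code_iff _).1 hc⟩))
    have h2 : ∀ a : Fin m, ∃ A, Codes J (col D a) A := fun a => by
      by_contra hc
      exact h (Or.inr (Or.inl (mem_iUnion.2 ⟨a, (not_code_iff _).1 hc⟩)))
    choose G hG using h1
    choose A hA using h2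
    have hAm : ∀ a, MeasurableSet (A a) := fun a => (hA a).measurableSet hJm
    have h3 : ∀ x, ∃ a, x ∈ A a := fun x => by
      by_contra hc
      choose W hW using fun a => ev_exists (hA a) x
      exact h (Or.inr (Or.inr (Or.inl ⟨(x, W), fun a =>
        ⟨hW a, fun h' => hc ⟨a, (ev_sound (hA a) x (hW a)).1 h'⟩⟩⟩)))
    obtain ⟨f, hfm, hf⟩ : ∃ f : X → Fin m, Measurable f ∧ ∀ x, x ∈ A (f x) := by
      have h4 : ∀ x, ∃ n, ∃ hn : n < m, x ∈ A ⟨n, hn⟩ := fun x =>
        (h3 x).elim fun a ha => ⟨a.1, a.2, ha⟩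
      refine ⟨fun x => ⟨Nat.find (h4 x), (Nat.find_spec (h4 x)).1⟩, ?_,
        fun x => (Nat.find_spec (h4 x)).2⟩
      refine measurable_to_countable' fun a => ?_
      have hm : Measurable fun x => Nat.find (h4 x) := measurable_find h4 fun n => by
        rw [ofPred_exists]
        exact MeasurableSet.iUnion fun hn => hAm _
      convert hm (measurableSet_singleton a.1) using 1
      ext x
      simp [Fin.ext_iff]
    refine ⟨G, hG, f, fun a => hfm (measurableSet_singleton a), fun i t ht => ?_⟩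
    by_contra hc
    obtain ⟨w, hw⟩ := ev_exists (hG i) t
    choose W hW using fun j => ev_exists (hA (f (t j))) (t j)
    exact h (Or.inr (Or.inr (Or.inr (mem_iUnion.2 ⟨i, mem_iUnion.2 ⟨f ∘ t, (t, w, W), hc,
      ⟨hw, (ev_sound (hG i) t hw).2 ht⟩,
      fun j => ⟨hW j, (ev_sound (hA _) _ (hW j)).2 (hf _)⟩⟩⟩))))

end Pool.Agent.P.MP_501d1b_lc
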